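import Pool.Agent.Run7.h552.PD.Defs

/-!
# Pieces of the cohomology of a variety
-/

set_option autoImplicit false

universe u

namespace Run7.h552.PD

open Pool.Agent.H914 Pool.Agent.H914.VarClass Pool.Agent.H914.VarClass.Obj
  Pool.Agent.H914.WeilCohomology Pool.Agent.H281R3.HT Pool.Agent.TH125.Gal Run7.h552.NP

variable {k : Type u} [Field k] {𝒱 : VarClass k} {ops : CycleOps 𝒱}
  {W : WeilCohomology.{u, 0} ops} {Γ : Type} [Group Γ]

/-- `PieceCond` for the cohomology of `A`. -/
abbrev IsPiece (χ : CharOf W Γ) {A : GVar W Γ} (P : Piece A) : Prop :=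
  PieceCond χ A.act (W.gr A.X) P

end Run7.h552.PD
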