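import Pool.Agent.Run7.h552.PD.Twr

/-!
# Tate classes as combinations with Tate coefficients
-/

set_option autoImplicit false
set_option linter.unusedSectionVars false

open CategoryTheory AlgebraicGeometry Finset Function

universe u

namespace Run7.h552.PD

open Pool.Agent Pool.Agent.H914 Pool.Agent.H914.VarClass Pool.Agent.H914.VarClass.Obj
  Pool.Agent.H914.WeilCohomology Pool.Agent.H281R3.HT Pool.Agent.W552 Pool.Agent.TH125.Gal
open Run7.h552.NP (IsProd Equivariant)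

noncomputable section

variable {k : Type u} [Field k] {𝒱 : VarClass k} {ops : CycleOps 𝒱}
  {W : WeilCohomology.{u, 0} ops} {Γ : Type} [Group Γ] {ι : Type}

variable {χ : Γ →* W.Kˣ} {X : ι → GVar W Γ} {Z : GVar W Γ}

theorem IsTate.out {V : GVar W Γ} {n : ℕ} {x : W.H V.X} (h : IsTate χ V n x) :
    x ∈ W.gr V.X (2 * n) ∧ ∃ Δ : Subgroup Γ, Δ.FiniteIndex ∧
      ∀ g ∈ Δ, V.act g x = (χ g : W.K) ^ n • x := h

theorem IsTate.intro {V : GVar W Γ} {n : ℕ} {x : W.H V.X} (h1 : x ∈ W.gr V.X (2 * n))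
    (Δ : Subgroup Γ) (hΔ : Δ.FiniteIndex) (h2 : ∀ g ∈ Δ, V.act g x = (χ g : W.K) ^ n • x) :
    IsTate χ V n x := ⟨h1, Δ, hΔ, h2⟩

theorem IsTate.map {V Y : GVar W Γ} {f : Y.X ⟶ V.X} (hf : Equivariant (A := Y) (B := V) f) {n : ℕ}
    {x : W.H V.X} (hx : IsTate χ V n x) : IsTate χ Y n (W.map f x) := by
  obtain ⟨h1, Δ, hΔ, h2⟩ := hx.out
  refine IsTate.intro (W.map_mem f h1) Δ hΔ fun g hg => ?_
  have h3 : Y.act g (W.map f x) = W.map f (V.act g x) := hf g x
  rw [h3, h2 g hg, map_smul]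

theorem IsTate.mul {V : GVar W Γ} {n n' : ℕ} {x y : W.H V.X} (hx : IsTate χ V n x)
    (hy : IsTate χ V n' y) : IsTate χ V (n + n') (x * y) := by
  obtain ⟨h1, Δ, hΔ, h2⟩ := hx.out
  obtain ⟨h1', Δ', hΔ', h2'⟩ := hy.out
  refine IsTate.intro (by rw [mul_add]; exact W.mul_mem h1 h1') (Δ ⊓ Δ') inferInstance
    fun g hg => ?_
  rw [map_mul, h2 g (Subgroup.mem_inf.1 hg).1, h2' g (Subgroup.mem_inf.1 hg).2,
    smul_mul_assoc, mul_smul_comm, smul_smul, pow_add]

theorem IsTate.one {V : GVar W Γ} : IsTate χ V 0 (1 : W.H V.X) :=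
  IsTate.intro (W.one_mem V.X) ⊤ inferInstance fun g _ => by
    rw [map_one, pow_zero, one_smul]

/-- Tate classes in the set `S`. -/
def Pd (χ : Γ →* W.Kˣ) (Y : GVar W Γ) (𝒜 : Subalgebra W.K (W.H Y.X)) (x : W.H Y.X) : Prop :=
  (∃ n, IsTate χ Y n x) ∧ x ∈ 𝒜

theorem Pd.mul {Y : GVar W Γ} {𝒜 : Subalgebra W.K (W.H Y.X)} {x y : W.H Y.X}
    (hx : Pd χ Y 𝒜 x) (hy : Pd χ Y 𝒜 y) : Pd χ Y 𝒜 (x * y) := by
  obtain ⟨⟨n, h1⟩, h2⟩ := hx
  obtain ⟨⟨n', h1'⟩, h2'⟩ := hy
  exact ⟨⟨_, h1.mul h1'⟩, 𝒜.mul_mem h2 h2'⟩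

theorem Pd.one {Y : GVar W Γ} {𝒜 : Subalgebra W.K (W.H Y.X)} : Pd χ Y 𝒜 (1 : W.H Y.X) :=
  ⟨⟨0, IsTate.one⟩, 𝒜.one_mem⟩

theorem Pd.list {Y : GVar W Γ} {𝒜 : Subalgebra W.K (W.H Y.X)} {l : List (W.H Y.X)}
    (h : ∀ x ∈ l, Pd χ Y 𝒜 x) : Pd χ Y 𝒜 l.prod := by
  induction l with
  | nil => exact Pd.one
  | cons a l ih =>
    rw [List.prod_cons]
    exact (h a List.mem_cons_self).mul (ih fun x hx => h x (List.mem_cons_of_mem _ hx))

theorem proj_mul_map {A B : 𝒱.Obj} (q : A ⟶ B) {i j : ℕ} {M : W.H A} (hM : M ∈ W.gr A (2 * i))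
    (w : W.H B) : proj (W.isInternal A) (2 * j) (M * W.map q w) =
      if i ≤ j then M * W.map q (proj (W.isInternal B) (2 * (j - i)) w) else 0 := by
  refine gr_induction (W.isInternal B) (p := fun w => proj (W.isInternal A) (2 * j)
    (M * W.map q w) = if i ≤ j then M * W.map q (proj (W.isInternal B) (2 * (j - i)) w) else 0)
    ?_ ?_ w
  · intro l a ha
    have h1 : M * W.map q a ∈ W.gr A (2 * i + l) := W.mul_mem hM (W.map_mem q ha)
    by_cases hij : i ≤ j
    · rw [if_pos hij]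
      by_cases hl : l = 2 * (j - i)
      · subst hl
        rw [proj_same _ ha]
        have h2 : 2 * i + 2 * (j - i) = 2 * j := by omega
        rw [h2] at h1
        exact proj_same _ h1
      · rw [proj_ne _ ha hl, map_zero, mul_zero]
        exact proj_ne _ h1 (by omega)
    · rw [if_neg hij]
      exact proj_ne _ h1 (by omega)
  · intro a b ha hb
    rw [map_add, mul_add, map_add, ha, hb]
    split
    · rw [← mul_add, ← map_add, ← map_add]
    · rw [add_zero]

/-- **Tate classes have Tate coefficients.** -/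
theorem exists_coeff {m : ℕ} {L : Fin m → ι} {Y : GVar W Γ} (D : TD X Z L Y)
    {𝒜 : Subalgebra W.K (W.H Y.X)} {j : ℕ} {c : W.H Y.X} (hc : IsTate χ Y j c)
    (hs : c ∈ Submodule.span W.K {y | ∃ M w, Pd χ Y 𝒜 M ∧
      M ∈ Submodule.span W.K (Set.range fun x => mon D.p x) ∧ y = M * W.map D.q w}) :
    ∃ (N : Type) (_ : Fintype N) (M : N → W.H Y.X) (w : N → W.H Z.X),
      (∀ n, Pd χ Y 𝒜 (M n)) ∧ (∀ n, ∃ i, IsTate χ Z i (w n)) ∧
        c = ∑ n, M n * W.map D.q (w n) := by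
  classical
  obtain ⟨hcj, Δ, hΔ, hca⟩ := hc.out
  obtain ⟨n, f, y, hy⟩ := Submodule.mem_span_set'.1 hs
  choose M w hPd hMs hyM using fun i => (y i).2
  obtain ⟨κ, a, ha, hsp, hli⟩ := exists_linearIndependent' W.K M
  have hfin : Finite κ := Finite.of_injective a ha
  have hft : Fintype κ := Fintype.ofFinite κ
  have hco : ∀ i, ∃ cf : κ → W.K, ∑ l, cf l • M (a l) = M i := fun i =>
    (Submodule.mem_span_range_iff_exists_fun W.K).1 (by
      rw [show (Submodule.span W.K (Set.range fun l => M (a l))) =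
        Submodule.span W.K (Set.range (M ∘ a)) from rfl, hsp]
      exact Submodule.subset_span ⟨i, rfl⟩)
  choose cf hcf using hco
  choose N hN using fun i => (hPd i).1
  let v : κ → W.H Z.X := fun l => ∑ i, (f i * cf i l) • w i
  have hv : c = ∑ l, M (a l) * W.map D.q (v l) := by
    have h1 : ∀ l, M (a l) * W.map D.q (v l) =
        ∑ i, (f i * cf i l) • (M (a l) * W.map D.q (w i)) := by
      intro l
      rw [map_sum, Finset.mul_sum]
      refine Finset.sum_congr rfl fun i _ => ?_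
      rw [map_smul, mul_smul_comm]
    rw [Finset.sum_congr rfl fun l _ => h1 l, Finset.sum_comm, ← hy]
    refine Finset.sum_congr rfl fun i _ => ?_
    rw [hyM i, ← hcf i, Finset.sum_mul, Finset.smul_sum]
    refine Finset.sum_congr rfl fun l _ => ?_
    rw [smul_mul_assoc, smul_smul]
  have huniq : ∀ v' : κ → W.H Z.X, ∑ l, M (a l) * W.map D.q (v' l) = 0 → ∀ l, v' l = 0 :=
    fun v' h => D.eq_zero_of_sum (M := M ∘ a) hli (fun l => hMs (a l)) h
  -- degrees
  have hdeg : ∀ l, v l = if N (a l) ≤ j then proj (W.isInternal Z.X) (2 * (j - N (a l))) (v l)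
      else 0 := by
    intro l
    rw [← sub_eq_zero]
    refine huniq (fun l => v l - if N (a l) ≤ j then
      proj (W.isInternal Z.X) (2 * (j - N (a l))) (v l) else 0) ?_ l
    have h1 : ∀ l, M (a l) * W.map D.q (v l - if N (a l) ≤ j then
        proj (W.isInternal Z.X) (2 * (j - N (a l))) (v l) else 0) =
        M (a l) * W.map D.q (v l) - proj (W.isInternal Y.X) (2 * j)
          (M (a l) * W.map D.q (v l)) := by
      intro l
      rw [proj_mul_map D.q (hN (a l)).1, map_sub, mul_sub]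
      congr 1
      split
      · rfl
      · rw [map_zero, mul_zero]
    rw [Finset.sum_congr rfl fun l _ => h1 l, Finset.sum_sub_distrib, ← map_sum, ← hv,
      proj_same _ hcj, sub_self]
  -- action
  choose Δ' hΔ' hact using fun l => (hN (a l)).out.2
  have hΔi : (⨅ l, Δ' l).FiniteIndex := Subgroup.finiteIndex_iInf hΔ'
  refine ⟨κ, hft, fun l => M (a l), v, fun l => hPd (a l), fun l => ?_, hv⟩
  by_cases hl : N (a l) ≤ j
  · refine ⟨j - N (a l), IsTate.intro ?_ (Δ ⊓ ⨅ l, Δ' l) inferInstance fun g hg => ?_⟩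
    · rw [hdeg l, if_pos hl]
      exact proj_mem _ _ _
    · have h2 := huniq (fun l => (χ g : W.K) ^ N (a l) • Z.act g (v l) - (χ g : W.K) ^ j • v l) (by
        have h1 : ∀ l, M (a l) * W.map D.q ((χ g : W.K) ^ N (a l) • Z.act g (v l) -
            (χ g : W.K) ^ j • v l) =
            Y.act g (M (a l) * W.map D.q (v l)) - (χ g : W.K) ^ j • (M (a l) * W.map D.q (v l)) := by
          intro l
          have h3 : Y.act g (W.map D.q (v l)) = W.map D.q (Z.act g (v l)) := D.hq g _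
          rw [map_mul, h3, hact l g (Subgroup.mem_iInf.1 (Subgroup.mem_inf.1 hg).2 l), map_sub,
            mul_sub, map_smul, map_smul, mul_smul_comm, mul_smul_comm, smul_mul_assoc]
        rw [Finset.sum_congr rfl fun l _ => h1 l, Finset.sum_sub_distrib, ← map_sum,
          ← Finset.smul_sum, ← hv, hca g (Subgroup.mem_inf.1 hg).1, sub_self]) l
      have h3 : (χ g : W.K) ^ j = (χ g : W.K) ^ N (a l) * (χ g : W.K) ^ (j - N (a l)) := by
        rw [← pow_add]
        congr 1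
        omega
      rw [sub_eq_zero, h3, mul_smul] at h2
      exact smul_right_injective _ (pow_ne_zero _ (Units.ne_zero (χ g))) h2
  · refine ⟨0, IsTate.intro ?_ ⊤ inferInstance fun g _ => ?_⟩
    · rw [hdeg l, if_neg hl]
      exact Submodule.zero_mem _
    · have h1 := hdeg l
      rw [if_neg hl] at h1
      rw [h1, map_zero, smul_zero]

end

end Run7.h552.PD
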