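import Pool.Agent.Run7.h552.PD.Kill
import Pool.Agent.TH125.Nod.Fft2

/-!
# The first fundamental theorem for multilinear maps of mixed type
-/

set_option autoImplicit false
set_option linter.unusedSectionVars false

namespace Run7.h552.PD

open Module Finset Function Pool.Agent.TH118.SG Pool.Agent.TH125.Gal Pool.Agent.Y127.G
  Pool.Agent.Y127.C Pool.Agent.Y95.ZT Run7.h552.CT Run7.h552.SF Run7.h552.MX

noncomputable section

section dual

variable {K : Type} [Field K] {V : Type} [AddCommGroup V] [Module K V] [FiniteDimensional K V]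

/-- The dual vectors of a basis. -/
theorem exists_dual (B : V →ₗ[K] V →ₗ[K] K) (nd : ∀ x, (∀ y, B y x = 0) → x = 0)
    {β : Type} [Fintype β] [DecidableEq β] (v : Basis β K V) :
    ∃ d : β → V, (∀ p q, B (v p) (d q) = if p = q then 1 else 0) ∧
      ∀ x, x = ∑ p, B (v p) x • d p := by
  let L : V →ₗ[K] (β → K) := LinearMap.pi fun p => B (v p)
  have hL : ∀ x p, L x p = B (v p) x := fun x p => rfl
  have hinj : Function.Injective L := by
    rw [← LinearMap.ker_eq_bot, LinearMap.ker_eq_bot']
    intro x hx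
    refine nd x fun y => ?_
    rw [← v.sum_repr y, map_sum, LinearMap.sum_apply]
    refine Finset.sum_eq_zero fun p _ => ?_
    rw [map_smul, LinearMap.smul_apply, ← hL, hx]
    exact smul_zero _
  have hcard : finrank K V = finrank K (β → K) := by
    rw [finrank_pi, finrank_eq_card_basis v]
  let E : V ≃ₗ[K] (β → K) := LinearEquiv.ofInjectiveOfFinrankEq L hinj hcard
  have hE : ∀ x, E x = L x := fun x => rfl
  refine ⟨fun q => E.symm (Pi.single q 1), fun p q => ?_, fun x => ?_⟩
  · rw [← hL, ← hE, LinearEquiv.apply_symm_apply, Pi.single_apply]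
  · apply E.injective
    rw [map_sum]
    funext q
    rw [Finset.sum_apply, Finset.sum_eq_single q]
    · rw [map_smul, LinearEquiv.apply_symm_apply, Pi.smul_apply, Pi.single_eq_same, hE, hL,
        smul_eq_mul, mul_one]
    · intro p _ hp
      rw [map_smul, LinearEquiv.apply_symm_apply, Pi.smul_apply, Pi.single_eq_of_ne (Ne.symm hp),
        smul_zero]
    · intro h
      exact absurd (Finset.mem_univ _) h

end dual

variable {K : Type} [Field K] [CharZero K] {Γ : Type} [Group Γ] {ι : Type}
  {T : ι → FRep K Γ} (hT : ∀ j, MRep (T j)) (S : Finset ι)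

/-- the indices of the basis -/
abbrev Bx (T : ι → FRep K Γ) (S : Finset ι) : Type :=
  Σ j : S, Fin (finrank K (T j.1).V)

/-- the total space -/
abbrev Vx (T : ι → FRep K Γ) (S : Finset ι) : Type := ∀ j : S, (T j.1).V

/-- the basis of the total space -/
def vec (T : ι → FRep K Γ) (S : Finset ι) : Basis (Bx T S) K (Vx T S) :=
  letI := Classical.decEq ι
  Pi.basis fun j : S => finBasis K (T j.1).V

theorem vec_self (b : Bx T S) : vec T S b b.1 = finBasis K (T b.1.1).V b.2 := by
  classical
  rw [vec, Pi.basis_apply]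
  convert Pi.single_eq_same _ _

theorem vec_ne (b : Bx T S) {j : S} (h : b.1 ≠ j) : vec T S b j = 0 := by
  classical
  rw [vec, Pi.basis_apply]
  convert Pi.single_eq_of_ne (Ne.symm h) _

/-- the total form -/
def Bt : Vx T S →ₗ[K] Vx T S →ₗ[K] K :=
  ∑ j : S, (hT j.1).B.compl₁₂ (LinearMap.proj j) (LinearMap.proj j)

theorem Bt_apply (v w : Vx T S) : Bt hT S v w = ∑ j : S, (hT j.1).B (v j) (w j) := by
  rw [Bt, LinearMap.sum_apply, LinearMap.sum_apply]
  rfl

theorem Bt_vec (b : Bx T S) (w : Vx T S) :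
    Bt hT S (vec T S b) w = (hT b.1.1).B (vec T S b b.1) (w b.1) := by
  rw [Bt_apply, Finset.sum_eq_single b.1]
  · intro j _ hj
    rw [vec_ne S b (Ne.symm hj), map_zero, LinearMap.zero_apply]
  · intro h
    exact absurd (Finset.mem_univ _) h

theorem MRep.nd {M : FRep K Γ} (o : MRep M) : ∀ x, (∀ y, o.B x y = 0) → x = 0 := by
  cases o with
  | sp o => exact o.nd
  | so o => exact o.nd

theorem MRep.sy {M : FRep K Γ} (o : MRep M) : ∀ x y, o.B x y = o.s * o.B y x := by
  cases o with
  | sp o => exact fun x y => (o.sy x y).trans (neg_one_mul _).symm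
  | so o => exact fun x y => (o.sy x y).trans (one_mul _).symm

theorem MRep.eqv {M : FRep K Γ} (o : MRep M) : ∀ g x y,
    o.B (M.ρ g x) (M.ρ g y) = (o.μ g : K) * o.B x y := by
  cases o with
  | sp o => exact o.eqv
  | so o => exact o.eqv

theorem MRep.nd' {M : FRep K Γ} (o : MRep M) : ∀ x, (∀ y, o.B y x = 0) → x = 0 := fun x h =>
  MRep.nd o x fun y => by rw [MRep.sy, h, mul_zero]

theorem Bt_nd (x : Vx T S) (h : ∀ y, Bt hT S y x = 0) : x = 0 := by
  classical
  funext j
  refine MRep.nd' (hT j.1) _ fun y => ?_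
  have h1 := h (Pi.single j y)
  rw [Bt_apply, Finset.sum_eq_single j] at h1
  · rwa [Pi.single_eq_same] at h1
  · intro i _ hi
    rw [Pi.single_eq_of_ne hi, map_zero, LinearMap.zero_apply]
  · intro h
    exact absurd (Finset.mem_univ _) h

/-- the Gram matrix -/
def Qx : Matrix (Bx T S) (Bx T S) K := Matrix.of fun b b' => Bt hT S (vec T S b) (vec T S b')

theorem Qx_apply (b b' : Bx T S) : Qx hT S b b' = (hT b.1.1).B (vec T S b b.1) (vec T S b' b.1) :=
  Bt_vec hT S b _

/-- the sign -/
def sg (j : S) : ℤ :=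
  letI := Classical.propDecidable ((hT j.1).IsO)
  if (hT j.1).IsO then 1 else -1

theorem sg_eq (j : S) : ((sg hT S j : ℤ) : K) = (hT j.1).s := by
  classical
  unfold sg
  cases h : hT j.1 with
  | sp o =>
    have h1 : ¬(MRep.sp o).IsO := fun h => h
    rw [if_neg h1]
    exact (Int.cast_neg _).trans (congrArg _ Int.cast_one)
  | so o =>
    have h1 : (MRep.so o).IsO := trivial
    rw [if_pos h1]
    exact Int.cast_one

theorem exists_Rx [DecidableEq ι] : ∃ R : Matrix (Bx T S) (Bx T S) K, Qx hT S * R = 1 := by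
  obtain ⟨d, hd, -⟩ := exists_dual (Bt hT S) (Bt_nd hT S) (vec T S)
  refine ⟨Matrix.of fun q r => (vec T S).repr (d r) q, ?_⟩
  ext p r
  rw [Matrix.mul_apply, Matrix.one_apply, ← hd p r]
  conv_rhs => rw [← (vec T S).sum_repr (d r), map_sum]
  refine Finset.sum_congr rfl fun q _ => ?_
  rw [map_smul, smul_eq_mul, mul_comm]
  rfl

variable {A : Type} [AddCommGroup A] [Module K A]

/-- the form as a function of indices -/
def fx {R : Type} (s : R → S) (h : MultilinearMap K (fun r : R => (T (s r).1).V) A) :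
    (R → Bx T S) → A :=
  fun J => h fun r => vec T S (J r) (s r)

/-- **The first fundamental theorem, mixed type.** -/
theorem gen_of_kill [DecidableEq ι] {R : Type} [Fintype R] [DecidableEq R] (s : R → S)
    (h : MultilinearMap K (fun r : R => (T (s r).1).V) A)
    (hk : ∀ i ∈ S, ∀ x y : (T i).V, ∃ D : ∀ j, (T j).V →ₗ[K] (T j).V,
      D i = oo (hT i).B (hT i).s x y ∧ (∀ j ∈ S, j ≠ i → D j = 0) ∧
      ∀ v : ∀ r : R, (T (s r).1).V, ∑ r, h (update v r (D (s r).1 (v r))) = 0)
    (hc : ∀ i : S, (hT i.1).IsO → (univ.filter fun r => s r = i).card < finrank K (T i.1).V) :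
    fx S s h ∈ Pool.Agent.TH125.Nod.Gen (fun b : Bx T S => b.1) (Qx hT S) s := by
  classical
  obtain ⟨Rm, hR⟩ := exists_Rx hT S
  refine Pool.Agent.TH125.Nod.fft (K := K) (κ := fun b : Bx T S => b.1) (Q := Qx hT S) (R := Rm)
    (s := sg hT S) ?_ ?_ ?_ hR (Fintype.card R) R s (fx S s h) rfl ?_ ?_ ?_
  · intro j
    unfold sg
    split
    · exact Or.inl rfl
    · exact Or.inr rfl
  · intro a b hab
    rw [Qx_apply, vec_ne S b (Ne.symm hab), map_zero]
  · intro a b
    rw [sg_eq]
    by_cases hab : a.1 = b.1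
    · rw [Qx_apply, Qx_apply, MRep.sy, ← hab]
    · rw [Qx_apply, Qx_apply, vec_ne S b (Ne.symm hab), map_zero, vec_ne S a hab, map_zero,
        mul_zero]
  · intro J hJ
    push Not at hJ
    obtain ⟨r, hr⟩ := hJ
    exact h.map_coord_zero r (vec_ne S _ hr)
  · intro u v huv J
    obtain ⟨i, hi⟩ : ∃ i : S, u.1 = i := ⟨_, rfl⟩
    have hvi : v.1 = i := (show u.1 = v.1 from huv).symm.trans hi
    obtain ⟨D, hD1, hD2, hD3⟩ := hk i.1 i.2 (vec T S u i) (vec T S v i)
    have h1 := hD3 fun r => vec T S (J r) (s r)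
    rw [← h1]
    refine Finset.sum_congr rfl fun r _ => ?_
    have hup : ∀ b : Bx T S, fx S s h (update J r b) =
        h (update (fun r => vec T S (J r) (s r)) r (vec T S b (s r))) := by
      intro b
      unfold fx
      congr 1
      funext r'
      by_cases hr : r' = r
      · subst hr
        rw [update_self, update_self]
      · rw [update_of_ne hr, update_of_ne hr]
    rw [hup, hup, ← h.map_update_smul, ← h.map_update_smul, ← h.map_update_sub]
    congr 2
    by_cases hr : s r = i
    · have hQ : ∀ b b' : Bx T S, b.1 = i → Qx hT S b b' =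
          (hT i.1).B (vec T S b i) (vec T S b' i) := by
        intro b b' hb
        subst hb
        rw [Qx_apply]
      have key : ∀ (j : S) (hj : j = i) (w : (T j.1).V),
          w = vec T S (J r) j → Qx hT S v (J r) • vec T S u j -
            (((sg hT S u.1 : ℤ) : K) * Qx hT S u (J r)) • vec T S v j = D j.1 w := by
        intro j hj w hw
        subst hj
        rw [hD1, hw, hQ v _ hvi, hQ u _ hi, sg_eq, hi, oo_apply]
      exact key (s r) hr _ rfl
    · rw [hD2 (s r).1 (s r).2 fun h => hr (Subtype.ext h), LinearMap.zero_apply,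
        vec_ne S u (by rw [hi]; exact Ne.symm hr), vec_ne S v (by rw [hvi]; exact Ne.symm hr),
        smul_zero, smul_zero, sub_zero]
  · intro i hi
    have hO : (hT i.1).IsO := by
      by_contra hcon
      unfold sg at hi
      rw [if_neg hcon] at hi
      norm_num at hi
    refine (hc i hO).trans_le (le_of_eq ?_)
    have h1 : (Pool.Agent.TH125.Nod.blk (fun b : Bx T S => b.1) i).card =
        Fintype.card (Fin (finrank K (T i.1).V)) := by
      rw [← Fintype.card_coe]
      refine Fintype.card_congr (Equiv.symm ?_)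
      refine Equiv.ofBijective (fun p => ⟨⟨i, p⟩, Pool.Agent.TH125.Nod.mem_blk.2 rfl⟩) ⟨?_, ?_⟩
      · intro p q h
        have h2 := congrArg Subtype.val h
        exact eq_of_heq (Sigma.mk.inj h2).2
      · rintro ⟨⟨j, p⟩, hp⟩
        rw [Pool.Agent.TH125.Nod.mem_blk] at hp
        obtain rfl : j = i := hp
        exact ⟨p, rfl⟩
    rw [h1, Fintype.card_fin]

end

end Run7.h552.PD
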