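import Pool.Agent.Run7.h552.PD.Coef
import Pool.Agent.Run7.h552.PD.Fft

/-!
# Decompositions of the cohomology and the classes of pairs
-/

set_option autoImplicit false
set_option linter.unusedSectionVars false

open CategoryTheory AlgebraicGeometry Finset Function

universe u

namespace Run7.h552.PD

open Pool.Agent Pool.Agent.H914 Pool.Agent.H914.VarClass Pool.Agent.H914.VarClass.Obj
  Pool.Agent.H914.WeilCohomology Pool.Agent.H281R3.HT Pool.Agent.W552 Pool.Agent.TH125.Gal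
  Pool.Agent.Y127.G
open Run7.h552.NP (IsProd Equivariant)
open Run7.h552.MX (MRep)

noncomputable section

variable {k : Type u} [Field k] {𝒱 : VarClass k} {ops : CycleOps 𝒱}
  {W : WeilCohomology.{u, 0} ops} {Γ : Type} [Group Γ] {ι τ : Type}

/-- The cohomology of `A` is the direct sum of lines which are spanned by Tate classes, and of
twists of the representations `T t`. -/
structure Dc (χ : Γ →* W.Kˣ) (T : τ → FRep W.K Γ) (dT : τ → ℕ) (A : GVar W Γ) where
  Δ : Subgroup Γ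
  fin : Δ.FiniteIndex
  NC : Type
  ft : Fintype NC
  s : NC → W.H A.X
  n : NC → ℕ
  nu : NC → Module.Dual W.K (W.H A.X)
  r : ℕ
  ty : Fin r → τ
  ph : ∀ u, (T (ty u)).V →ₗ[W.K] W.H A.X
  pr : ∀ u, W.H A.X →ₗ[W.K] (T (ty u)).V
  d : Fin r → ℕ
  z : Fin r → ℤ
  s_mem : ∀ l, s l ∈ W.gr A.X (2 * n l)
  s_act : ∀ g ∈ Δ, ∀ l, A.act g (s l) = (χ g : W.K) ^ n l • s l
  nu_act : ∀ g ∈ Δ, ∀ l y, nu l (A.act g y) = (χ g : W.K) ^ n l * nu l y
  hz : ∀ u, 2 * z u = (dT (ty u) : ℤ) - d u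
  ph_mem : ∀ u x, ph u x ∈ W.gr A.X (d u)
  ph_act : ∀ g ∈ Δ, ∀ u x, A.act g (ph u x) = (χ g : W.K) ^ (-z u) • ph u ((T (ty u)).ρ g x)
  pr_act : ∀ g ∈ Δ, ∀ u y, pr u (A.act g y) = (χ g : W.K) ^ (-z u) • (T (ty u)).ρ g (pr u y)
  exp : ∀ x, x = ∑ l, nu l x • s l + ∑ u, ph u (pr u x)

attribute [instance] Dc.ft Dc.fin

variable {χ : Γ →* W.Kˣ} {T : τ → FRep W.K Γ} {dT : τ → ℕ}

theorem Dc.isTate {A : GVar W Γ} (E : Dc χ T dT A) (l : E.NC) : IsTate χ A (E.n l) (E.s l) :=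
  ⟨E.s_mem l, E.Δ, E.fin, fun g hg => E.s_act g hg l⟩

variable (hT : ∀ t, MRep (T t)) (S : Finset τ)

/-- dual vectors -/
structure IsDd (dd : Bx T S → Vx T S) : Prop where
  ne : ∀ p q, p ≠ q → Bt hT S (vec T S p) (dd q) = 0
  one : ∀ p, Bt hT S (vec T S p) (dd p) = 1
  exp : ∀ x, x = ∑ p, Bt hT S (vec T S p) x • dd p

theorem exists_dd : ∃ dd : Bx T S → Vx T S, IsDd hT S dd := by
  classical
  obtain ⟨d, h1, h2⟩ := exists_dual (Bt hT S) (Bt_nd hT S) (vec T S)
  exact ⟨d, fun p q h => (h1 p q).trans (if_neg h), fun p => (h1 p p).trans (if_pos rfl), h2⟩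

/-- the form in a twisted pair of vectors -/
theorem sum_dual {t : S} {M : Type} [AddCommGroup M] [Module W.K M]
    (F : (T t.1).V →ₗ[W.K] (T t.1).V →ₗ[W.K] M) {dd : Bx T S → Vx T S}
    (hd : IsDd hT S dd) (g : Γ) :
    ∑ b, ∑ b', Qx hT S b b' • F ((T t.1).ρ g (dd b t)) ((T t.1).ρ g (dd b' t)) =
      ((hT t.1).μ g : W.K) • ∑ b, ∑ b', Qx hT S b b' • F (dd b t) (dd b' t) := by
  classical
  have h2 := hd.exp
  let B := (hT t.1).B
  -- first sum
  have h3 : ∀ b', ∑ b, Qx hT S b b' • (dd b) = vec T S b' := fun b' => (h2 (vec T S b')).symm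
  have h4 : ∀ b' : Bx T S, ∑ b, Qx hT S b b' • (dd b t) = vec T S b' t := by
    intro b'
    have h5 := congrFun (h3 b') t
    rw [Finset.sum_apply] at h5
    exact h5
  have h5 : ∀ (f : (T t.1).V →ₗ[W.K] (T t.1).V),
      ∑ b, ∑ b', Qx hT S b b' • F (f (dd b t)) (f (dd b' t)) =
      ∑ b', F (f (vec T S b' t)) (f (dd b' t)) := by
    intro f
    rw [Finset.sum_comm]
    refine Finset.sum_congr rfl fun b' _ => ?_
    rw [← h4 b', map_sum, map_sum, LinearMap.sum_apply]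
    refine Finset.sum_congr rfl fun b _ => ?_
    rw [map_smul, map_smul, LinearMap.smul_apply]
  have h5' := h5 LinearMap.id
  simp only [LinearMap.id_apply] at h5'
  rw [h5 ((T t.1).ρ g), h5']
  -- expansion in the basis
  have hv : ∀ x : (T t.1).V, x = ∑ b, B x (dd b t) • vec T S b t := by
    intro x
    have h6 : ∀ x : Vx T S, x = ∑ b, Bt hT S x (dd b) • vec T S b := by
      intro x
      have h7 := (vec T S).sum_repr x
      have h8 : ∀ b, (vec T S).repr x b = Bt hT S x (dd b) := by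
        intro b
        conv_rhs => rw [← h7, map_sum, LinearMap.sum_apply]
        rw [Finset.sum_eq_single b]
        · rw [map_smul, LinearMap.smul_apply, hd.one, smul_eq_mul, mul_one]
        · intro b' _ hb
          rw [map_smul, LinearMap.smul_apply, hd.ne _ _ hb, smul_zero]
        · intro h
          exact absurd (Finset.mem_univ _) h
      conv_lhs => rw [← h7]
      exact Finset.sum_congr rfl fun b _ => by rw [h8]
    have h7 := congrFun (h6 (Pi.single t x)) t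
    rw [Pi.single_eq_same, Finset.sum_apply] at h7
    refine h7.trans (Finset.sum_congr rfl fun b _ => ?_)
    rw [Pi.smul_apply]
    congr 1
    rw [Bt_apply, Finset.sum_eq_single t]
    · rw [Pi.single_eq_same]
    · intro j _ hj
      rw [Pi.single_eq_of_ne hj, map_zero, LinearMap.zero_apply]
    · intro h
      exact absurd (Finset.mem_univ _) h
  have hdd : ∀ x : (T t.1).V, x = ∑ b, B (vec T S b t) x • dd b t := by
    intro x
    have h7 := congrFun (h2 (Pi.single t x)) t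
    rw [Pi.single_eq_same, Finset.sum_apply] at h7
    refine h7.trans (Finset.sum_congr rfl fun b _ => ?_)
    rw [Pi.smul_apply]
    congr 1
    rw [Bt_apply, Finset.sum_eq_single t]
    · rw [Pi.single_eq_same]
    · intro j _ hj
      rw [Pi.single_eq_of_ne hj, map_zero]
    · intro h
      exact absurd (Finset.mem_univ _) h
  have h6 : ∀ b, F ((T t.1).ρ g (vec T S b t)) ((T t.1).ρ g (dd b t)) =
      ∑ b', F (vec T S b' t) (B ((T t.1).ρ g (vec T S b t)) (dd b' t) •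
        (T t.1).ρ g (dd b t)) := by
    intro b
    conv_lhs => rw [hv ((T t.1).ρ g (vec T S b t))]
    rw [map_sum, LinearMap.sum_apply]
    refine Finset.sum_congr rfl fun b' _ => ?_
    rw [map_smul, LinearMap.smul_apply, map_smul]
  rw [Finset.sum_congr rfl fun b _ => h6 b, Finset.sum_comm, Finset.smul_sum]
  refine Finset.sum_congr rfl fun b' _ => ?_
  rw [← map_sum, ← map_smul]
  congr 1
  have h7 : ∀ b, B ((T t.1).ρ g (vec T S b t)) (dd b' t) • (T t.1).ρ g (dd b t) =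
      ((hT t.1).μ g : W.K) • (T t.1).ρ g (B (vec T S b t) ((T t.1).ρ g⁻¹ (dd b' t)) • dd b t) := by
    intro b
    rw [map_smul, smul_smul]
    congr 1
    conv_lhs => rw [← FRep.inv_right (T t.1) g (dd b' t)]
    exact MRep.eqv (hT t.1) g _ _
  rw [Finset.sum_congr rfl fun b _ => h7 b, ← Finset.smul_sum, ← map_sum,
    ← hdd ((T t.1).ρ g⁻¹ (dd b' t)), FRep.inv_right]

/-- the dual vectors are adapted to the types -/
theorem dd_ne {dd : Bx T S → Vx T S} (hd : IsDd hT S dd) (b : Bx T S) {t : S}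
    (ht : b.1 ≠ t) : dd b t = 0 := by
  refine MRep.nd' (hT t.1) _ fun y => ?_
  rw [← (Module.finBasis W.K (T t.1).V).sum_repr y, map_sum, LinearMap.sum_apply]
  refine Finset.sum_eq_zero fun p _ => ?_
  rw [map_smul, LinearMap.smul_apply]
  have h2 := hd.ne ⟨t, p⟩ b fun h => ht (congrArg Sigma.fst h).symm
  rw [Bt_vec, vec_self] at h2
  have h3 : ((hT t.1).B (Module.finBasis W.K (T t.1).V p)) (dd b t) = 0 := h2
  rw [h3, smul_zero]

/-- The class of a pair. -/
def theta {V A B : GVar W Γ} (p : V.X ⟶ A.X) (q : V.X ⟶ B.X) {t t' : S}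
    (f : (T t.1).V →ₗ[W.K] W.H A.X) (f' : (T t'.1).V →ₗ[W.K] W.H B.X) (dd : Bx T S → Vx T S) :
    W.H V.X :=
  ∑ b, ∑ b', Qx hT S b b' • (W.map p (f (dd b t)) * W.map q (f' (dd b' t')))

theorem map_theta {V V' A B : GVar W Γ} (F : V'.X ⟶ V.X) (p : V.X ⟶ A.X) (q : V.X ⟶ B.X)
    {t t' : S} (f : (T t.1).V →ₗ[W.K] W.H A.X) (f' : (T t'.1).V →ₗ[W.K] W.H B.X)
    (dd : Bx T S → Vx T S) : W.map F (theta hT S (V := V) (A := A) (B := B) p q f f' dd) =
      theta hT S (V := V') (A := A) (B := B) (F ≫ p) (F ≫ q) f f' dd := by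
  rw [theta, theta, map_sum]
  refine Finset.sum_congr rfl fun b _ => ?_
  rw [map_sum]
  refine Finset.sum_congr rfl fun b' _ => ?_
  rw [map_smul, map_mul, ← W.map_comp, ← W.map_comp]

theorem theta_ne {V A B : GVar W Γ} {p : V.X ⟶ A.X} {q : V.X ⟶ B.X} {t t' : S}
    {f : (T t.1).V →ₗ[W.K] W.H A.X} {f' : (T t'.1).V →ₗ[W.K] W.H B.X} {dd : Bx T S → Vx T S}
    (hd : IsDd hT S dd) (ht : t ≠ t') :
    theta hT S (V := V) (A := A) (B := B) p q f f' dd = 0 := by
  rw [theta]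
  refine Finset.sum_eq_zero fun b _ => Finset.sum_eq_zero fun b' _ => ?_
  by_cases hb : b.1 = t
  · by_cases hb' : b'.1 = t'
    · rw [Qx_apply, vec_ne S b' (by rw [hb, hb']; exact Ne.symm ht), map_zero, zero_smul]
    · rw [dd_ne hT S hd b' hb', map_zero, map_zero, mul_zero, smul_zero]
  · rw [dd_ne hT S hd b hb, map_zero, map_zero, zero_mul, smul_zero]

/-- **The class of a pair is a Tate class.** -/
theorem theta_tate (hμ : ∀ t, (hT t).μ = χ ^ dT t) {V A B : GVar W Γ} {p : V.X ⟶ A.X}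
    {q : V.X ⟶ B.X} (hp : Equivariant (A := V) (B := A) p) (hq : Equivariant (A := V) (B := B) q)
    (E : Dc χ T dT A) (E' : Dc χ T dT B) {u : Fin E.r} {u' : Fin E'.r} (hu : E.ty u ∈ S)
    (hu' : E'.ty u' ∈ S) {dd : Bx T S → Vx T S}
    (hd : IsDd hT S dd) : ∃ n, IsTate χ V n
      (theta hT S (V := V) (A := A) (B := B) p q (t := ⟨E.ty u, hu⟩) (t' := ⟨E'.ty u', hu'⟩)
        (E.ph u) (E'.ph u') dd) := by
  classical
  by_cases ht : (⟨E.ty u, hu⟩ : S) = ⟨E'.ty u', hu'⟩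
  swap
  · refine ⟨0, ?_⟩
    rw [theta_ne hT S hd ht]
    exact IsTate.intro (Submodule.zero_mem _) ⊤ inferInstance fun g _ => by
      rw [map_zero, smul_zero]
  -- generalise
  have key : ∀ (t' : τ) (ht' : t' ∈ S) (htt : t' = E.ty u) (f' : (T t').V →ₗ[W.K] W.H B.X)
      (d' : ℕ) (z' : ℤ) (_ : 2 * z' = (dT t' : ℤ) - d') (_ : ∀ x, f' x ∈ W.gr B.X d')
      (_ : ∀ g ∈ E'.Δ, ∀ x, B.act g (f' x) = (χ g : W.K) ^ (-z') • f' ((T t').ρ g x)),
      ∃ n, IsTate χ V n
        (theta hT S (V := V) (A := A) (B := B) p q (t := ⟨E.ty u, hu⟩) (t' := ⟨t', ht'⟩)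
          (E.ph u) f' dd) := by
    rintro t' ht' rfl f' d' z' hz' hf' hact'
    have hz := E.hz u
    obtain ⟨N, hN⟩ : ∃ N : ℕ, 2 * N = E.d u + d' := by
      have h3 : (E.d u + d' : ℤ) = 2 * (dT (E.ty u) - E.z u - z') := by linarith
      refine ⟨(E.d u + d') / 2, ?_⟩
      omega
    refine ⟨N, IsTate.intro ?_ (E.Δ ⊓ E'.Δ) inferInstance fun g hg => ?_⟩
    · rw [theta]
      refine Submodule.sum_mem _ fun b _ => Submodule.sum_mem _ fun b' _ =>
        Submodule.smul_mem _ _ ?_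
      rw [hN]
      exact W.mul_mem (W.map_mem p (E.ph_mem u _)) (W.map_mem q (hf' _))
    · obtain ⟨hg1, hg2⟩ := Subgroup.mem_inf.1 hg
      let F : (T (E.ty u)).V →ₗ[W.K] (T (E.ty u)).V →ₗ[W.K] W.H V.X :=
        (LinearMap.mul W.K (W.H V.X)).compl₁₂ ((W.map p).toLinearMap ∘ₗ E.ph u)
          ((W.map q).toLinearMap ∘ₗ f')
      have hF : ∀ x y, F x y = W.map p (E.ph u x) * W.map q (f' y) := fun x y => rfl
      have h4 := sum_dual hT S (t := ⟨E.ty u, hu⟩) F hd g
      have h5 : V.act g (theta hT S (V := V) (A := A) (B := B) p q (t := ⟨E.ty u, hu⟩)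
          (t' := ⟨E.ty u, ht'⟩) (E.ph u) f' dd) =
          ((χ g : W.K) ^ (-E.z u) * (χ g : W.K) ^ (-z')) • ∑ b, ∑ b', Qx hT S b b' •
            F ((T (E.ty u)).ρ g (dd b ⟨E.ty u, hu⟩)) ((T (E.ty u)).ρ g (dd b' ⟨E.ty u, hu⟩)) := by
        rw [theta, map_sum, Finset.smul_sum]
        refine Finset.sum_congr rfl fun b _ => ?_
        rw [map_sum, Finset.smul_sum]
        refine Finset.sum_congr rfl fun b' _ => ?_
        have h6 : V.act g (W.map p (E.ph u (dd b ⟨E.ty u, hu⟩))) =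
            W.map p (A.act g (E.ph u (dd b ⟨E.ty u, hu⟩))) := hp g _
        have h7 : V.act g (W.map q (f' (dd b' ⟨E.ty u, hu⟩))) =
            W.map q (B.act g (f' (dd b' ⟨E.ty u, hu⟩))) := hq g _
        rw [map_smul, map_mul, h6, h7, E.ph_act g hg1, hact' g hg2, map_smul, map_smul,
          smul_mul_assoc, mul_smul_comm, hF]
        rw [smul_smul, smul_smul, smul_smul]
        congr 1
        ring
      rw [h5]
      have h6 : ∑ b, ∑ b', Qx hT S b b' •
            F ((T (E.ty u)).ρ g (dd b ⟨E.ty u, hu⟩)) ((T (E.ty u)).ρ g (dd b' ⟨E.ty u, hu⟩)) =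
          ((hT (E.ty u)).μ g : W.K) • theta hT S (V := V) (A := A) (B := B) p q
            (t := ⟨E.ty u, hu⟩) (t' := ⟨E.ty u, ht'⟩) (E.ph u) f' dd := h4
      rw [h6, smul_smul, hμ, MonoidHom.pow_apply, Units.val_pow_eq_pow_val]
      congr 1
      have h7 : (χ g : W.K) ≠ 0 := Units.ne_zero (χ g)
      rw [← zpow_natCast, ← zpow_natCast, ← zpow_add₀ h7, ← zpow_add₀ h7]
      congr 1
      have h8 : (2 * N : ℤ) = E.d u + d' := by exact_mod_cast hN
      linarith
  exact key _ hu' (congrArg Subtype.val ht).symm _ (E'.d u') (E'.z u') (E'.hz u')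
    (fun x => E'.ph_mem u' x) (fun g hg x => E'.ph_act g hg u' x)

end

end Run7.h552.PD
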