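import Pool.Agent.Run7.h552.NP.Defs

/-!
# Varieties whose cohomology is generated by pieces with symplectic or orthogonal monodromy
-/

set_option autoImplicit false

open CategoryTheory AlgebraicGeometry

universe u

namespace Run7.h552.PD

open Pool.Agent.H914 Pool.Agent.H914.VarClass Pool.Agent.H914.VarClass.Obj
  Pool.Agent.H914.WeilCohomology Pool.Agent.H281R3.HT Pool.Agent.TH125.Gal Run7.h552.NP

section Alg

variable {K : Type} [Field K] {A : Type} [Ring A] [Algebra K A] {B : Type} [Ring B] [Algebra K B]
  {Γ : Type} [Group Γ]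

/-- The element `x` is multiplied by `χ g ^ n` by all `g` in a subgroup of finite index. -/
def IsSemi (χ : Γ →* Kˣ) (ρ : Act K A Γ) (n : ℕ) (x : A) : Prop :=
  ∃ Δ : Subgroup Γ, Δ.FiniteIndex ∧ ∀ g ∈ Δ, ap ρ g x = (χ g : K) ^ n • x

/-- The element `x` has degree `2 n` and is multiplied by `χ g ^ n` by all `g` in a subgroup of finite
index. -/
def IsTateIn (χ : Γ →* Kˣ) (ρ : Act K A Γ) (gr : ℕ → Submodule K A) (n : ℕ) (x : A) : Prop :=
  x ∈ gr (2 * n) ∧ IsSemi χ ρ n x

/-- The space `T` is stable. -/
def IsStable (ρ : Act K A Γ) (T : Submodule K A) : Prop := ∀ g, ∀ x ∈ T, ap ρ g x ∈ T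

/-- The space `T` carries a nondegenerate form `b` with `b(g x, g y) = χ(g) ^ d b(x, y)` which is
alternating if `t` is odd and symmetric if `t` is even. -/
def HasForm (χ : Γ →* Kˣ) (ρ : Act K A Γ) (T : Submodule K A) (t d : ℕ) : Prop :=
  ∃ b : A → A → K, (∀ x, IsLinearMap K (b x)) ∧ (∀ y, IsLinearMap K fun x => b x y) ∧
    (∀ x ∈ T, ∀ y ∈ T, b x y = (-1) ^ t * b y x) ∧
    (∀ x ∈ T, (∀ y ∈ T, b x y = 0) → x = 0) ∧
    ∀ g, ∀ x ∈ T, ∀ y ∈ T, b (ap ρ g x) (ap ρ g y) = (χ g : K) ^ d * b x y

/-- The products `s x₁ ⋯ x_n`, where `s` is in `S` and the `x_i` are elements of the spaces `sp j`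
which are given by a word in the set of words. -/
def wordProducts {r : ℕ} (S : Set A) (sp : Fin r → Submodule K A) (words : Set (List (Fin r))) :
    Set A :=
  {y | ∃ s ∈ S, ∃ w ∈ words, ∃ x : Fin w.length → A, (∀ i, x i ∈ sp (w.get i)) ∧
    y = s * (List.ofFn x).prod}

/-- The number of the letters of the word `w` with the property `p`. -/
noncomputable def letters {r : ℕ} (p : Fin r → Prop) (w : List (Fin r)) : ℕ :=
  Nat.card {i : Fin w.length // p (w.get i)}

/-- A subspace `sp`, a number `deg` (its degree), and a number `typ` whose parity is the type of the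
monodromy (odd: symplectic, even: orthogonal). -/
structure PieceOf (K A : Type) [Field K] [Ring A] [Algebra K A] where
  /-- the degree -/
  deg : ℕ
  /-- the type -/
  typ : ℕ
  /-- the space -/
  sp : Submodule K A

/-- The dimension. -/
noncomputable def PieceOf.dim (P : PieceOf K A) : ℕ := dm K (P.sp : Set A)

/-- The space `P` consists of elements of degree `deg`; it is stable, irreducible under all subgroups
of finite index, and satisfies the local condition; and it carries a nondegenerate form `b` with
`b(g x, g y) = χ(g) ^ deg b(x, y)` which is alternating if `typ` is odd and symmetric if `typ` is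
even. -/
structure PieceCond [FiniteDimensional K A] (χ : Γ →* Kˣ) (ρ : Act K A Γ)
    (gr : ℕ → Submodule K A) (P : PieceOf K A) : Prop where
  le : P.sp ≤ gr P.deg
  stable : IsStable ρ P.sp
  irred : IrredAct ρ P.sp
  loc : LocalType P.typ ρ P.sp
  form : HasForm χ ρ P.sp P.typ P.deg

/-- Finitely many pieces, and a set of words (finite sequences) in these pieces. -/
structure GensOf (K A : Type) [Field K] [Ring A] [Algebra K A] where
  /-- the number of the pieces -/
  r : ℕ
  /-- the pieces -/
  pc : Fin r → PieceOf K A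
  /-- the words -/
  words : Set (List (Fin r))

/-- The pieces satisfy `PieceCond`, and the algebra is spanned by the products
`s x₁ ⋯ x_n`, where `s` is a Tate class and the `x_i` are elements of the pieces which are given by a
word in the set of words. -/
structure GenCond [FiniteDimensional K A] (χ : Γ →* Kˣ) (ρ : Act K A Γ)
    (gr : ℕ → Submodule K A) (P : GensOf K A) : Prop where
  piece : ∀ u, PieceCond χ ρ gr (P.pc u)
  span : Submodule.span K
    (wordProducts {s | ∃ n, IsTateIn χ ρ gr n s} (fun j => (P.pc j).sp) P.words) = ⊤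

/-- The two pieces are isomorphic up to a function on the group, and their degrees have the same
parity. -/
def LinkedIn (ρ : Act K A Γ) (P : PieceOf K A) (ρ' : Act K B Γ) (Q : PieceOf K B) : Prop :=
  Even (P.deg + Q.deg) ∧ TwistIso ρ P.sp ρ' Q.sp

/-- The two pieces are not isomorphic up to a function on the group, and they do not have exceptional
dimensions. -/
def ApartIn (ρ : Act K A Γ) (P : PieceOf K A) (ρ' : Act K B Γ) (Q : PieceOf K B) : Prop :=
  ¬TwistIso ρ P.sp ρ' Q.sp ∧ NotExc P.typ P.dim Q.typ Q.dim

end Alg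

variable {k : Type u} [Field k] {𝒱 : VarClass k} {ops : CycleOps 𝒱}
  {W : WeilCohomology.{u, 0} ops} {Γ : Type} [Group Γ] {ι : Type}

/-- The varieties `X_(L 0) × (X_(L 1) × ( ⋯ × Z))`, with actions which are compatible with the
projections. -/
inductive Tow (X : ι → GVar W Γ) (Z : GVar W Γ) : ∀ {m : ℕ}, (Fin m → ι) → GVar W Γ → Prop
  | base (L : Fin 0 → ι) : Tow X Z L Z
  | step {m : ℕ} {L : Fin (m + 1) → ι} {Y Y' : GVar W Γ} : Tow X Z (fun a => L a.succ) Y →
      IsProd (X (L 0)) Y Y' → Tow X Z L Y'

/-- `x` is a Tate class of codimension `n` on `V`: a class in `H^(2n)(V)` which is multiplied by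
`χ g ^ n` by all `g` in a subgroup of finite index. -/
def IsTate (χ : Γ →* W.Kˣ) (V : GVar W Γ) (n : ℕ) (x : W.H V.X) : Prop :=
  IsTateIn χ V.act (W.gr V.X) n x

/-- The pieces of the cohomology of `A`. -/
abbrev Piece (A : GVar W Γ) : Type := PieceOf W.K (W.H A.X)

/-- The sets of pieces of the cohomology of `A`. -/
abbrev Gens (A : GVar W Γ) : Type := GensOf W.K (W.H A.X)

/-- `GenCond` for the cohomology of `A`. -/
abbrev IsGen (χ : CharOf W Γ) {A : GVar W Γ} (P : Gens A) : Prop :=
  GenCond χ A.act (W.gr A.X) P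

/-- The two pieces are isomorphic up to a function on the group, and their degrees have the same
parity. -/
def Linked {A B : GVar W Γ} (P : Piece A) (Q : Piece B) : Prop := LinkedIn A.act P B.act Q

/-- The two pieces are not isomorphic up to a function on the group, and they do not have exceptional
dimensions. -/
def Apart {A B : GVar W Γ} (P : Piece A) (Q : Piece B) : Prop := ApartIn A.act P B.act Q

/-- The cohomology of `Z` is generated by subspaces with which the pieces of `A` are not entangled, or
of low dimension. -/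
def FreeOver (χ : CharOf W Γ) {A : GVar W Γ} (P : Gens A) (Z : GVar W Γ) : Prop :=
  ∀ u, GenFree χ (P.pc u).typ A.act (P.pc u).sp Z.act

/-- The variety `Z` and the varieties `X i` are members of the good class `G`; the cohomology of
`X i` is generated by the pieces in `P i` and by Tate classes; any two pieces are linked or apart;
and the cohomology of `Z` is generated by subspaces with which the pieces are not entangled, or of low
dimension. -/
structure GenFamily (χ : CharOf W Γ) (G : Set (GVar W Γ)) (X : ι → GVar W Γ)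
    (P : ∀ i, Gens (X i)) (Z : GVar W Γ) : Prop where
  good : GoodClass χ G
  mem : ∀ i, X i ∈ G
  mem_base : Z ∈ G
  gen : ∀ i, IsGen χ (P i)
  pairs : ∀ i j u v, Linked ((P i).pc u) ((P j).pc v) ∨ Apart ((P i).pc u) ((P j).pc v)
  base : ∀ i, FreeOver χ (P i) Z

/-- Some piece of `X i` is linked to some piece of `X j`. -/
def LinkedVar {X : ι → GVar W Γ} (P : ∀ i, Gens (X i)) (i j : ι) : Prop :=
  ∃ u v, Linked ((P i).pc u) ((P j).pc v)

/-- If one chooses a word for every factor `X_(L a)` then, for every piece `Q` of even type, the number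
of the letters which are linked to this piece is smaller than its dimension. -/
def FewFor {X : ι → GVar W Γ} (P : ∀ i, Gens (X i)) {m : ℕ} (L : Fin m → ι) {A : GVar W Γ}
    (Q : Piece A) : Prop :=
  ∀ w : ∀ a, List (Fin (P (L a)).r), (∀ a, w a ∈ (P (L a)).words) →
    ∑ a, letters (fun v => Linked Q ((P (L a)).pc v)) (w a) < Q.dim

/-- `FewFor` holds for all pieces of even type. -/
def Few {X : ι → GVar W Γ} (P : ∀ i, Gens (X i)) {m : ℕ} (L : Fin m → ι) : Prop :=
  ∀ i u, Even ((P i).pc u).typ → FewFor P L ((P i).pc u)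

/-- The classes `f^* z` on `Y`, where `f` is an equivariant morphism from `Y` to `Z`, or to a factor
`X_(L a)`, or to the product of two linked factors `X_(L a)`, `X_(L b)`, and `z` is a Tate class. -/
def FromPairs (χ : CharOf W Γ) {X : ι → GVar W Γ} (P : ∀ i, Gens (X i)) (Z : GVar W Γ) {m : ℕ}
    (L : Fin m → ι) (Y : GVar W Γ) : Set (W.H Y.X) :=
  {x | ∃ (V : GVar W Γ) (f : Y.X ⟶ V.X) (n : ℕ) (z : W.H V.X),
    (V = Z ∨ (∃ a, V = X (L a)) ∨
      ∃ a b, a < b ∧ LinkedVar P (L a) (L b) ∧ IsProd (X (L a)) (X (L b)) V) ∧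
    Equivariant (A := Y) (B := V) f ∧ IsTate χ V n z ∧ x = W.map f z}

/-- There is a zero-cycle on `A` whose degree is not zero. -/
def HasPoint (A : GVar W Γ) : Prop :=
  ∃ z : A.X.Cycles, A.X.IsCyc A.X.dim z ∧ A.X.V.degCycle z ≠ 0

end Run7.h552.PD
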