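import Pool.Agent.Run7.h552.MX.App

/-!
# Multilinear maps of mixed type with values in an algebra
-/

set_option autoImplicit false
set_option linter.unusedSectionVars false

namespace Run7.h552.PD

open Module Finset Function Pool.Agent.TH118.SG Pool.Agent.TH125.Gal Pool.Agent.Y127.G
  Pool.Agent.Y127.C Pool.Agent.Y95.ZT Run7.h552.CT Run7.h552.SF Run7.h552.MX

noncomputable section

variable {K : Type} [Field K] [CharZero K] {Γ : Type} [Group Γ]
  {A : Type} [Ring A] [Algebra K A] [FiniteDimensional K A] [IsAlgClosed K]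

/-- equivariance of a multilinear map of mixed type, with a character -/
def EqvM {ι : Type} (T : ι → FRep K Γ) (lam : Γ →* Kˣ) (τ : Γ →* (A ≃ₐ[K] A)) {R : Type}
    (s : R → ι) (h : MultilinearMap K (fun r : R => (T (s r)).V) A) : Prop :=
  ∃ Δ : Subgroup Γ, Δ.FiniteIndex ∧ ∀ g ∈ Δ, ∀ v,
    h (fun r => (T (s r)).ρ g (v r)) = (lam g : K) • τ g (h v)

/-- **From an operator which kills the small members.** -/
theorem der_of_op {ι : Type} {m : ℕ} {T : ι → FRep K Γ} {M : Fin m → FRep K Γ}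
    {χ : Γ →* Kˣ} {τ : Γ →* (A ≃ₐ[K] A)} (hgen : GenBy T M χ τ ∅)
    {μ : ι → Γ →* Kˣ} {κ : Fin m → Γ →* Kˣ} (lam : Γ →* Kˣ)
    {R : Type} [Fintype R] [DecidableEq R] (s : R → ι)
    {h : MultilinearMap K (fun r : R => (T (s r)).V) A} (hh : EqvM T lam τ s h)
    {D : ∀ j, (fam T M μ κ χ lam τ j).V →ₗ[K] (fam T M μ κ χ lam τ j).V}
    (hD : D ∈ GG1 (fam T M μ κ χ lam τ))
    (hDM : ∀ a, D (Ix.pc a) = 0) (v : ∀ r : R, (T (s r)).V) :
    ∑ r, h (update v r ((D (Ix.t (s r)) : Module.End K (T (s r)).V) (v r))) = 0 := by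
  classical
  let N : Ix ι m → FRep K Γ := fam T M μ κ χ lam τ
  have hDG := GG1_le hD
  have hDl : D Ix.lam = 0 := GG1_line hD (line_finrank _).le
  have hDc : ∀ n, D (Ix.chi n) = 0 := fun n => GG1_line hD (line_finrank _).le
  -- the derivation of the algebra
  let E : A →ₗ[K] A := D Ix.alg
  have hE : ∀ a b : A, E (a * b) = E a * b + a * E b := by
    intro a b
    have h1 : ∀ (g : Γ) (x y : A), (((1 : Γ →* Kˣ) g : K) • τ g x) *
        (((1 : Γ →* Kˣ) g : K) • τ g y) = ((1 : Γ →* Kˣ) g : K) • τ g (x * y) := by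
      intro g x y
      simp
    exact (bil_der (N := N) (a := Ix.alg) (b := Ix.alg) (c := Ix.alg) (LinearMap.mul K A)
      (Δ := ⊤) inferInstance (fun g _ x y => h1 g x y) hDG a b).symm
  have hE1 : E 1 = 0 := by
    have h1 := hE 1 1
    rw [mul_one, mul_one, one_mul] at h1
    exact left_eq_add.1 h1
  have hE0 : ∀ a : A, E a = 0 := by
    intro a
    have ha : a ∈ Algebra.adjoin K (SemiInv χ τ ∪
      ({x | ∃ j ∈ (∅ : Set ι), ∃ f : (T j).V →ₗ[K] A, (∀ g y, f ((T j).ρ g y) = τ g (f y)) ∧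
          ∃ y, f y = x} ∪
       {x | ∃ a, ∃ f : (M a).V →ₗ[K] A, (∀ g y, f ((M a).ρ g y) = τ g (f y)) ∧ ∃ y, f y = x})) := by
      rw [hgen]
      exact Algebra.mem_top
    induction ha using Algebra.adjoin_induction with
    | mem a ha =>
      rcases ha with ⟨n, Δ, hΔ, h1⟩ | ⟨j, hj, f, hf, z, rfl⟩ | ⟨b, f, hf, z, rfl⟩
      · have h4 : ∀ g ∈ Δ, ∀ z : K, (((χ ^ n) g : K) • z) • a =
            ((1 : Γ →* Kˣ) g : K) • τ g (z • a) := by
          intro g hg z
          rw [map_smul, h1 g hg, MonoidHom.one_apply, Units.val_one, one_smul,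
            MonoidHom.pow_apply, Units.val_pow_eq_pow_val, smul_comm z, smul_assoc]
        have h2 := lin_der (N := N) (a := Ix.chi n) (c := Ix.alg)
          (LinearMap.toSpanSingleton K A a) hΔ (fun g hg z => h4 g hg z) hDG (1 : K)
        rw [hDc] at h2
        have h3 : E ((1 : K) • a) = 0 := by
          refine Eq.trans h2.symm ?_
          exact map_zero _
        rwa [one_smul] at h3
      · exact absurd hj (Set.notMem_empty _)
      · have h4 : ∀ (g : Γ) (y : (M b).V), f ((M b).ρ g y) =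
            ((1 : Γ →* Kˣ) g : K) • τ g (f y) := by
          intro g y
          rw [hf, MonoidHom.one_apply, Units.val_one, one_smul]
        have h2 := lin_der (N := N) (a := Ix.pc b) (c := Ix.alg) f (Δ := ⊤) inferInstance
          (fun g _ y => h4 g y) hDG z
        rw [hDM b] at h2
        exact h2.symm.trans (map_zero f)
    | algebraMap r => rw [Algebra.algebraMap_eq_smul_one, map_smul, hE1, smul_zero]
    | add a b _ _ ha hb => rw [map_add, ha, hb, add_zero]
    | mul a b _ _ ha hb => rw [hE, ha, hb, zero_mul, mul_zero, add_zero]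
  -- the target
  have htgt : ∀ a : A, D Ix.tgt a = 0 := by
    intro a
    have h4 : ∀ (g : Γ) (x : K) (y : A), ((lam g : K) • x) • (((1 : Γ →* Kˣ) g : K) • τ g y) =
        (lam g : K) • τ g (x • y) := by
      intro g x y
      rw [map_smul, MonoidHom.one_apply, Units.val_one, one_smul, smul_assoc]
    have h1 := bil_der (N := N) (a := Ix.lam) (b := Ix.alg) (c := Ix.tgt)
      (LinearMap.lsmul K A) (Δ := ⊤) inferInstance (fun g _ x y => h4 g x y) hDG (1 : K) a
    rw [hDl] at h1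
    have h2 : D Ix.tgt ((1 : K) • a) = 0 := by
      refine Eq.trans h1.symm ?_
      change (0 : K) • a + (1 : K) • E a = 0
      rw [hE0, smul_zero, zero_smul, add_zero]
    rwa [one_smul] at h2
  obtain ⟨Δ, hΔ, hΔh⟩ := hh
  have h1 := hDG R (fun r => Ix.t (s r)) Ix.tgt h ⟨Δ, hΔ, hΔh⟩ v
  have h2 : D Ix.tgt (h v) = 0 := htgt (h v)
  exact h1.trans h2

/-- **The main application, mixed type.** -/
theorem kill_mixed (e : K ≃+* ℂ) {ι : Type} {m : ℕ} {T : ι → FRep K Γ}
    {M : Fin m → FRep K Γ} {χ : Γ →* Kˣ} {τ : Γ →* (A ≃ₐ[K] A)}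
    (hgen : GenBy T M χ τ ∅) (hT : ∀ j, MRep (T j)) (hind : Indep hT) (i : ι)
    (hM : ∀ a, (hT i).Small (M a)) (lam : Γ →* Kˣ) (S : Finset ι) (x y : (T i).V) :
    ∃ D : ∀ j, (T j).V →ₗ[K] (T j).V, D i = oo (hT i).B (hT i).s x y ∧
      (∀ j ∈ S, j ≠ i → D j = 0) ∧
      ∀ {R : Type} [Fintype R] [DecidableEq R] (s : R → ι)
        {h : MultilinearMap K (fun r : R => (T (s r)).V) A} (_ : EqvM T lam τ s h)
        (v : ∀ r : R, (T (s r)).V), ∑ r, h (update v r (D (s r) (v r))) = 0 := by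
  classical
  choose κ hκ using fun a => (hT i).exists_smallK (hM a)
  let N : Ix ι m → FRep K Γ := fam T M (fun j => (hT j).μ) κ χ lam τ
  have hmem : ∀ j, ∃ o : Mem N (Ix.t j), o.B = (hT j).B ∧ o.s = (hT j).s ∧
      (o.IsO ↔ (hT j).IsO) := fun j =>
    exists_mem e (N := N) (t := Ix.t j) (c := Ix.mu j) (hT j) (line_finrank _) (fun g x => rfl)
  choose o hoB hos hoI using hmem
  have hgoodT : ∀ j, j ≠ i → Good N (Ix.t i) (Ix.t j) := fun j hj =>
    mem_good (o i) (o j) (hind.iso j i hj) (hind.iso i j hj.symm)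
      (fun k1 k2 k3 => hind.mixed i j (fun h => k1 ((hoI i).2 h)) ((hoI j).1 k2) k3)
      (fun k1 k2 k3 => hind.mixed j i (fun h => k2 ((hoI j).2 h)) ((hoI i).1 k1) k3)
      (fun k1 k2 k3 k4 => hind.eight i j hj.symm ((hoI i).1 k1) ((hoI j).1 k2) k3 k4)
  have hgoodM : ∀ a, Good N (Ix.t i) (Ix.pc a) := fun a =>
    good_smallK (N := N) (t := Ix.t i) (a := Ix.pc a) (c := Ix.cf a) (hT i) (hκ a) (o i) (hoI i)
      (line_finrank _) (fun g x => rfl)
  obtain ⟨D, hD, hD0, hDt⟩ := (o i).good_finset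
    ((S.erase i).image Ix.t ∪ (univ : Finset (Fin m)).image Ix.pc) (by
      intro a ha
      rcases Finset.mem_union.1 ha with ha | ha
      · obtain ⟨j, hj, rfl⟩ := Finset.mem_image.1 ha
        exact hgoodT j (Finset.mem_erase.1 hj).1
      · obtain ⟨a, -, rfl⟩ := Finset.mem_image.1 ha
        exact hgoodM a) x y
  refine ⟨fun j => D (Ix.t j), ?_, ?_, ?_⟩
  · have h3 : (D (Ix.t i) : Module.End K (T i).V) = oo (hT i).B (hT i).s x y := by
      rw [hDt, hoB, hos]
      rfl
    exact h3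
  · intro j hj hji
    exact hD0 _ (Finset.mem_union_left _ (Finset.mem_image.2 ⟨j, Finset.mem_erase.2 ⟨hji, hj⟩,
      rfl⟩))
  · intro R _ _ s h hh v
    exact der_of_op hgen lam s hh hD (fun a => hD0 _ (Finset.mem_union_right _
      (Finset.mem_image.2 ⟨a, Finset.mem_univ _, rfl⟩))) v

end

end Run7.h552.PD
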