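import Pool.Agent.Run7.h552.PD.Pat

/-!
# The contribution of a pattern (II)
-/

set_option autoImplicit false
set_option linter.unusedSectionVars false

open CategoryTheory AlgebraicGeometry Finset Function

universe u

namespace Run7.h552.PD

open Pool.Agent Pool.Agent.H914 Pool.Agent.H914.VarClass Pool.Agent.H914.VarClass.Obj
  Pool.Agent.H914.WeilCohomology Pool.Agent.H281R3.HT Pool.Agent.W552 Pool.Agent.TH125.Gal
  Pool.Agent.Y127.G
open Run7.h552.NP (IsProd Equivariant)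
open Run7.h552.MX (MRep Indep)

noncomputable section

variable {k : Type u} [Field k] {𝒱 : VarClass k} {ops : CycleOps 𝒱}
  {W : WeilCohomology.{u, 0} ops} {Γ : Type} [Group Γ] {ι τ : Type}
  {χ : Γ →* W.Kˣ} {T : τ → FRep W.K Γ} {dT : τ → ℕ} (hT : ∀ t, MRep (T t))
  {X : ι → GVar W Γ} {Z : GVar W Γ} (E : ∀ i, Dc χ T dT (X i))

section pattern

variable {m : ℕ} {L : Fin m → ι} {Y : GVar W Γ} (D : TD X Z L Y) {S : Finset τ}
  (hS : ∀ a (u : Fin (E (L a)).r), (E (L a)).ty u ∈ S) {JC : Type} {c₀ : Fin m → Option JC}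
  (uu : ∀ r : Free c₀, Fin (E (L r.1)).r) (ll : ∀ a, c₀ a ≠ none → (E (L a)).NC)

/-- products with Tate classes in the algebra, as a span -/
def Tgt' (χ : Γ →* W.Kˣ) {X : ι → GVar W Γ} {Z : GVar W Γ} {m : ℕ} {L : Fin m → ι} {Y : GVar W Γ}
    (D : TD X Z L Y) (𝒜 : Subalgebra W.K (W.H Y.X)) : Submodule W.K (W.H Y.X) :=
  Submodule.span W.K {y | ∃ M w, Pd χ Y 𝒜 M ∧
    M ∈ Submodule.span W.K (Set.range fun x => mon D.p x) ∧ y = M * W.map D.q w}

open Classical in
/-- the classes at the positions, as a function of one index -/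
def EA (dd : Bx T S → Vx T S) (a : Fin m) : JC ⊕ Bx T S → W.H Y.X
  | .inl _ => if h : c₀ a = none then 0 else W.map (D.p a) ((E (L a)).s (ll a h))
  | .inr b => if h : c₀ a = none then
      W.map (D.p a) ((E (L a)).ph (uu ⟨a, h⟩) (dd b (sS E hS uu ⟨a, h⟩))) else 0

theorem EA_comb (dd : Bx T S → Vx T S) (J : Free c₀ → Bx T S) (a : Fin m) :
    EA E D hS uu ll dd a (comb c₀ J a) = W.map (D.p a) (vA E hS uu ll dd J a) := by
  by_cases h : c₀ a = none
  · have h1 : comb c₀ J a = Sum.inr (J ⟨a, h⟩) := comb_none J ⟨a, h⟩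
    rw [h1, vA, dif_pos h]
    change dite _ _ _ = _
    rw [dif_pos h]
  · obtain ⟨i, hi⟩ := Option.ne_none_iff_exists'.1 h
    rw [comb_some J hi, vA, dif_neg h]
    change dite _ _ _ = _
    rw [dif_neg h]

open Classical in
/-- degrees -/
def dA (a : Fin m) : ℕ :=
  if h : c₀ a = none then (E (L a)).d (uu ⟨a, h⟩) else 2 * (E (L a)).n (ll a h)

theorem vA_mem (dd : Bx T S → Vx T S) (J : Free c₀ → Bx T S) (a : Fin m) :
    vA E hS uu ll dd J a ∈ W.gr (X (L a)).X (dA E uu ll a) := by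
  by_cases h : c₀ a = none
  · rw [vA, dif_pos h, dA, dif_pos h]
    exact (E (L a)).ph_mem _ _
  · rw [vA, dif_neg h, dA, dif_neg h]
    exact (E (L a)).s_mem _

/-- sums over a pattern, against generators -/
theorem sum_gen_mem [DecidableEq τ] (hμ : ∀ t, (hT t).μ = χ ^ dT t) {dd : Bx T S → Vx T S} (hd : IsDd hT S dd)
    {𝒜 : Subalgebra W.K (W.H Y.X)} (h1 : ∀ a l, W.map (D.p a) ((E (L a)).s l) ∈ 𝒜)
    (h2 : ∀ a a' (u : Fin (E (L a)).r) (u' : Fin (E (L a')).r), a ≠ a' →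
      theta hT S (V := Y) (A := X (L a)) (B := X (L a')) (D.p a) (D.p a')
        (t := ⟨(E (L a)).ty u, hS a u⟩) (t' := ⟨(E (L a')).ty u', hS a' u'⟩) ((E (L a)).ph u)
        ((E (L a')).ph u') dd ∈ 𝒜)
    {n : ℕ} (e : Fin n × Fin 2 ≃ Free c₀) (w : W.H Z.X) :
    ∑ J : Free c₀ → Bx T S, mon D.p (vA E hS uu ll dd J) *
      W.map D.q (Pool.Agent.TH125.Nod.gen (fun b : Bx T S => b.1) (Qx hT S) (sS E hS uu) e w J) ∈
    Tgt' χ D 𝒜 := by
  classical
  -- drop the condition on types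
  have h3 : ∀ J : Free c₀ → Bx T S, mon D.p (vA E hS uu ll dd J) * W.map D.q
      (Pool.Agent.TH125.Nod.gen (fun b : Bx T S => b.1) (Qx hT S) (sS E hS uu) e w J) =
      ((∏ l, Qx hT S (J (e (l, 0))) (J (e (l, 1)))) • mon D.p (vA E hS uu ll dd J)) *
        W.map D.q w := by
    intro J
    by_cases hJ : ∀ r, (J r).1 = sS E hS uu r
    · have h4 : Pool.Agent.TH125.Nod.gen (fun b : Bx T S => b.1) (Qx hT S) (sS E hS uu) e w J =
          (∏ l, Qx hT S (J (e (l, 0))) (J (e (l, 1)))) • w := if_pos hJ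
      rw [h4, map_smul, mul_smul_comm, smul_mul_assoc]
    · push Not at hJ
      obtain ⟨r, hr⟩ := hJ
      have h4 : mon D.p (vA E hS uu ll dd J) = 0 := by
        rw [mon, List.prod_eq_zero]
        rw [List.mem_ofFn']
        refine ⟨r.1, ?_⟩
        beta_reduce
        have h0 : dd (J r) (sS E hS uu r) = 0 := dd_ne hT S hd _ hr
        have h0' : (E (L r.1)).ph (uu r) (dd (J r) (sS E hS uu r)) = 0 :=
          (congrArg ((E (L r.1)).ph (uu r)) h0).trans (map_zero _)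
        rw [vA, dif_pos r.2]
        exact (congrArg (W.map (D.p r.1)) h0').trans (map_zero _)
      rw [h4, zero_mul, smul_zero, zero_mul]
  rw [Finset.sum_congr rfl fun J _ => h3 J, ← Finset.sum_mul]
  refine Submodule.subset_span ⟨_, w, ?_, ?_, rfl⟩
  swap
  · exact Submodule.sum_mem _ fun J _ => Submodule.smul_mem _ _ (Submodule.subset_span ⟨_, rfl⟩)
  have h5 : ∀ J : Free c₀ → Bx T S, mon D.p (vA E hS uu ll dd J) =
      (List.ofFn fun a => EA E D hS uu ll dd a (comb c₀ J a)).prod := by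
    intro J
    rw [mon]
    congr 2
    funext a
    exact (EA_comb E D hS uu ll dd J a).symm
  obtain ⟨ε, hε⟩ := sum_pattern' (K := W.K) (E := EA E D hS uu ll dd) (c := c₀) (dA E uu ll) (by
    intro J p q _
    rw [EA_comb, EA_comb]
    exact W.comm (W.map_mem _ (vA_mem E hS uu ll dd J p)) (W.map_mem _ (vA_mem E hS uu ll dd J q)))
    e (Qx hT S)
  rw [Finset.sum_congr rfl fun J _ => by rw [h5 J], hε]
  refine Pd.smul (Pd.mul (Pd.list ?_) (Pd.list ?_)) _
  · intro x hx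
    rw [List.mem_ofFn'] at hx
    obtain ⟨l, rfl⟩ := hx
    beta_reduce
    set r := e (l, 0) with hr
    set r' := e (l, 1) with hr'
    have hne : r.1 ≠ r'.1 := by
      intro h
      have h6 := e.injective (Subtype.ext h)
      exact absurd (Prod.mk.inj h6).2 (by decide)
    have h6 : ∑ a : Fin 2 → Bx T S, Qx hT S (a 0) (a 1) •
        (EA E D hS uu ll dd r.1 (Sum.inr (a 0)) * EA E D hS uu ll dd r'.1 (Sum.inr (a 1))) =
        theta hT S (V := Y) (A := X (L r.1)) (B := X (L r'.1)) (D.p r.1) (D.p r'.1)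
          (t := ⟨(E (L r.1)).ty (uu r), hS r.1 (uu r)⟩)
          (t' := ⟨(E (L r'.1)).ty (uu r'), hS r'.1 (uu r')⟩) ((E (L r.1)).ph (uu r))
          ((E (L r'.1)).ph (uu r')) dd := by
      refine (Fintype.sum_equiv (finTwoArrowEquiv (Bx T S)) _ (fun a => Qx hT S a.1 a.2 •
        (EA E D hS uu ll dd r.1 (Sum.inr a.1) * EA E D hS uu ll dd r'.1 (Sum.inr a.2)))
        (fun a => rfl)).trans ?_
      rw [theta, Fintype.sum_prod_type]
      refine Finset.sum_congr rfl fun b _ => Finset.sum_congr rfl fun b' _ => ?_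
      have k1 : EA E D hS uu ll dd r.1 (Sum.inr b) =
          W.map (D.p r.1) ((E (L r.1)).ph (uu r) (dd b (sS E hS uu r))) := dif_pos r.2
      have k2 : EA E D hS uu ll dd r'.1 (Sum.inr b') =
          W.map (D.p r'.1) ((E (L r'.1)).ph (uu r') (dd b' (sS E hS uu r'))) := dif_pos r'.2
      change Qx hT S b b' • (EA E D hS uu ll dd r.1 (Sum.inr b) *
        EA E D hS uu ll dd r'.1 (Sum.inr b')) = _
      rw [k1, k2]
      rfl
    rw [h6]
    exact ⟨theta_tate hT S hμ (D.hp _) (D.hp _) (E (L r.1)) (E (L r'.1)) (hS r.1 (uu r))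
      (hS r'.1 (uu r')) hd, h2 _ _ _ _ hne⟩
  · intro x hx
    rw [List.mem_map] at hx
    obtain ⟨a, ha, rfl⟩ := hx
    rw [mem_fixList] at ha
    obtain ⟨i, hi⟩ := Option.ne_none_iff_exists'.1 ha
    rw [hi]
    change Pd χ Y 𝒜 (EA E D hS uu ll dd a (Sum.inl i))
    have k1 : EA E D hS uu ll dd a (Sum.inl i) = W.map (D.p a) ((E (L a)).s (ll a ha)) :=
      dif_neg ha
    rw [k1]
    exact ⟨⟨_, ((E (L a)).isTate (ll a ha)).map (D.hp a)⟩, h1 a _⟩

variable [IsAlgClosed W.K]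

/-- **The contribution of a pattern.** -/
theorem pattern_mem [DecidableEq τ] (e : W.K ≃+* ℂ) (C : Ctx (dT := dT) χ hT Z)
    {dd : Bx T S → Vx T S} (hd : IsDd hT S dd)
    {𝒜 : Subalgebra W.K (W.H Y.X)} (h1 : ∀ a l, W.map (D.p a) ((E (L a)).s l) ∈ 𝒜)
    (h2 : ∀ a a' (u : Fin (E (L a)).r) (u' : Fin (E (L a')).r), a ≠ a' →
      theta hT S (V := Y) (A := X (L a)) (B := X (L a')) (D.p a) (D.p a')
        (t := ⟨(E (L a)).ty u, hS a u⟩) (t' := ⟨(E (L a')).ty u', hS a' u'⟩) ((E (L a)).ph u)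
        ((E (L a')).ph u') dd ∈ 𝒜)
    (hcount : ∀ t ∈ S, (hT t).IsO → ∀ s : Finset (Fin m),
      (∀ a ∈ s, ∃ u, (E (L a)).ty u = t) → s.card < Module.finrank W.K (T t).V)
    {j : ℕ} {c : W.H Y.X} (hc : IsTate χ Y j c) :
    ∑ J : Free c₀ → Bx T S, mon D.p (vA E hS uu ll dd J) *
      W.map D.q (D.Ct (lA hT E hS uu ll fun r => vec T S (J r) (sS E hS uu r)) c) ∈
    Tgt' χ D 𝒜 := by
  classical
  have hG := gen_of_kill hT S (sS E hS uu) (hA hT E D hS uu ll c) (by
    intro i hi x y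
    obtain ⟨m', M, hM, hgen⟩ := C.base i
    obtain ⟨D', k1, k2, k3⟩ := kill_mixed e hgen hT C.ind i hM
      ((∏ a, scA hT E hS uu ll a) * (χ ^ j)⁻¹) S x y
    exact ⟨D', k1, k2, fun v => k3 _ (hA_eqv hT E D hS uu ll hc) v⟩) (by
    intro i hi
    refine lt_of_le_of_lt ?_ (hcount i.1 i.2 hi
      ((Finset.univ.filter fun r => sS E hS uu r = i).image Subtype.val) ?_)
    · rw [Finset.card_image_of_injective _ Subtype.val_injective]
    · intro a ha
      obtain ⟨r, hr, rfl⟩ := Finset.mem_image.1 ha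
      exact ⟨uu r, congrArg Subtype.val (Finset.mem_filter.1 hr).2⟩)
  let Sm : ((Free c₀ → Bx T S) → W.H Z.X) →ₗ[W.K] W.H Y.X :=
    ∑ J, LinearMap.mulLeft W.K (mon D.p (vA E hS uu ll dd J)) ∘ₗ (W.map D.q).toLinearMap ∘ₗ
      LinearMap.proj J
  have hSm : ∀ f, Sm f = ∑ J, mon D.p (vA E hS uu ll dd J) * W.map D.q (f J) := by
    intro f
    rw [LinearMap.sum_apply]
    rfl
  have key : ∀ f ∈ Pool.Agent.TH125.Nod.Gen (fun b : Bx T S => b.1) (Qx hT S) (sS E hS uu),
      Sm f ∈ Tgt' χ D 𝒜 := by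
    intro f hf
    induction hf using Submodule.span_induction with
    | mem f hf =>
      obtain ⟨n, e', w, rfl⟩ := hf
      rw [hSm]
      convert sum_gen_mem hT E D hS uu ll C.mu hd h1 h2 e' w
    | zero => rw [map_zero]; exact Submodule.zero_mem _
    | add x y _ _ hx hy => rw [map_add]; exact Submodule.add_mem _ hx hy
    | smul r x _ hx => rw [map_smul]; exact Submodule.smul_mem _ _ hx
  have h3 := key _ hG
  rw [hSm] at h3
  exact h3

end pattern

end

end Run7.h552.PD
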