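import Pool.Agent.Run7.h552.PD.Dec

/-!
# The contribution of a pattern
-/

set_option autoImplicit false
set_option linter.unusedSectionVars false

open CategoryTheory AlgebraicGeometry Finset Function

universe u

namespace Run7.h552.PD

open Pool.Agent Pool.Agent.H914 Pool.Agent.H914.VarClass Pool.Agent.H914.VarClass.Obj
  Pool.Agent.H914.WeilCohomology Pool.Agent.H281R3.HT Pool.Agent.W552 Pool.Agent.TH125.Gal
  Pool.Agent.Y127.G
open Run7.h552.NP (IsProd Equivariant)
open Run7.h552.MX (MRep Indep)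

noncomputable section

/-- **Sums of monomials over the free positions of a pattern.** -/
theorem sum_pattern' {K : Type} [Field K] {A : Type} [Ring A] [Algebra K A] {JC JT : Type} {N : ℕ}
    [Fintype JT] [DecidableEq JT] {E : Fin N → JC ⊕ JT → A} {c : Fin N → Option JC}
    (Dg : Fin N → ℕ)
    (hE : ∀ (r : Free c → JT) p q, p ≠ q → E p (comb c r p) * E q (comb c r q) =
      (-1 : K) ^ (Dg p * Dg q) • (E q (comb c r q) * E p (comb c r p)))
    {m : ℕ} (e : Fin m × Fin 2 ≃ Free c) (Q : JT → JT → K) :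
    ∃ ε : ℤ, ∑ r : Free c → JT, (∏ l, Q (r (e (l, 0))) (r (e (l, 1)))) •
        (List.ofFn fun p => E p (comb c r p)).prod =
      (ε : K) • ((List.ofFn fun l : Fin m => ∑ a : Fin 2 → JT, Q (a 0) (a 1) •
        (E (e (l, 0)).1 (Sum.inr (a 0)) * E (e (l, 1)).1 (Sum.inr (a 1)))).prod *
        ((fixList c).map fun p => (c p).elim 1 fun i => E p (Sum.inl i)).prod) := by
  obtain ⟨ε, h1, h2⟩ := perm_sign (K := K) (A := A) Dg (perm_lists e) (List.nodup_finRange N)
  refine ⟨ε, ?_⟩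
  have h3 : ∀ r : Free c → JT, (List.ofFn fun p => E p (comb c r p)).prod =
      (ε : K) • ((List.ofFn fun l : Fin m =>
        E (e (l, 0)).1 (Sum.inr (r (e (l, 0)))) * E (e (l, 1)).1 (Sum.inr (r (e (l, 1))))).prod *
        ((fixList c).map fun p => (c p).elim 1 fun i => E p (Sum.inl i)).prod) := by
    intro r
    have h4 := h2 (fun p => E p (comb c r p)) fun p q hpq => hE r p q hpq
    have h5 : ((pairList e).map fun p => E p (comb c r p)).prod = (List.ofFn fun l : Fin m =>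
        E (e (l, 0)).1 (Sum.inr (r (e (l, 0)))) *
          E (e (l, 1)).1 (Sum.inr (r (e (l, 1))))).prod := by
      rw [pairList, List.map_flatMap, List.ofFn_eq_map]
      generalize List.finRange m = L
      induction L with
      | nil => rfl
      | cons l L ih =>
        rw [List.flatMap_cons, List.prod_append, ih, List.map_cons, List.prod_cons]
        congr 1
        simp only [List.map_cons, List.map_nil, List.prod_cons, List.prod_nil, mul_one]
        rw [comb_none, comb_none]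
    have h6 : ((fixList c).map fun p => E p (comb c r p)) =
        ((fixList c).map fun p => (c p).elim 1 fun i => E p (Sum.inl i)) := by
      refine List.map_congr_left fun p hp => ?_
      rw [mem_fixList] at hp
      cases h : c p with
      | none => exact absurd h hp
      | some i => rw [comb_some r h]; rfl
    rw [List.map_append, List.prod_append, h5, h6] at h4
    rw [List.ofFn_eq_map, h4, smul_smul]
    have h7 : (ε : K) * (ε : K) = 1 := by
      rw [← Int.cast_mul, h1, Int.cast_one]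
    rw [h7, one_smul]
  have h8 : ∑ r : Free c → JT, (∏ l, Q (r (e (l, 0))) (r (e (l, 1)))) •
      (List.ofFn fun l : Fin m =>
        E (e (l, 0)).1 (Sum.inr (r (e (l, 0)))) * E (e (l, 1)).1 (Sum.inr (r (e (l, 1))))).prod =
      (List.ofFn fun l : Fin m => ∑ a : Fin 2 → JT, Q (a 0) (a 1) •
        (E (e (l, 0)).1 (Sum.inr (a 0)) * E (e (l, 1)).1 (Sum.inr (a 1)))).prod := by
    rw [← sum_prod]
    refine Fintype.sum_equiv ((Equiv.arrowCongr e.symm (Equiv.refl JT)).trans
      (Equiv.curry _ _ _)) _ _ fun r => ?_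
    rfl
  rw [← h8, Finset.sum_mul, Finset.smul_sum]
  refine Finset.sum_congr rfl fun r _ => ?_
  rw [h3, smul_comm, smul_mul_assoc]

variable {k : Type u} [Field k] {𝒱 : VarClass k} {ops : CycleOps 𝒱}
  {W : WeilCohomology.{u, 0} ops} {Γ : Type} [Group Γ] {ι τ : Type}

theorem Pd.smul {χ : Γ →* W.Kˣ} {Y : GVar W Γ} {𝒜 : Subalgebra W.K (W.H Y.X)} {x : W.H Y.X}
    (hx : Pd χ Y 𝒜 x) (a : W.K) : Pd χ Y 𝒜 (a • x) := by
  obtain ⟨⟨n, hn⟩, h3⟩ := hx
  obtain ⟨h1, Δ, hΔ, h2⟩ := hn.out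
  exact ⟨⟨n, IsTate.intro (Submodule.smul_mem _ _ h1) Δ hΔ fun g hg => by
    rw [map_smul, h2 g hg, smul_comm]⟩, 𝒜.smul_mem h3 a⟩

variable {χ : Γ →* W.Kˣ} {T : τ → FRep W.K Γ} {dT : τ → ℕ} (hT : ∀ t, MRep (T t))
  {X : ι → GVar W Γ} {Z : GVar W Γ} (E : ∀ i, Dc χ T dT (X i))

/-- The data of the proof. -/
structure Ctx (χ : Γ →* W.Kˣ) (hT : ∀ t, MRep (T t)) (Z : GVar W Γ) : Prop where
  mu : ∀ t, (hT t).μ = χ ^ dT t
  ind : Indep hT
  base : ∀ t, ∃ (m : ℕ) (M : Fin m → FRep W.K Γ), (∀ a, (hT t).Small (M a)) ∧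
    GenBy T M χ Z.act ∅

section pattern

variable {m : ℕ} {L : Fin m → ι} {Y : GVar W Γ} (D : TD X Z L Y) {S : Finset τ}
  (hS : ∀ a (u : Fin (E (L a)).r), (E (L a)).ty u ∈ S) {JC : Type} {c₀ : Fin m → Option JC}
  (uu : ∀ r : Free c₀, Fin (E (L r.1)).r) (ll : ∀ a, c₀ a ≠ none → (E (L a)).NC)

/-- the types of the free positions -/
def sS (r : Free c₀) : S := ⟨(E (L r.1)).ty (uu r), hS r.1 (uu r)⟩

open Classical in
/-- the vectors at the positions -/
def vA (dd : Bx T S → Vx T S) (J : Free c₀ → Bx T S) (a : Fin m) : W.H (X (L a)).X :=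
  if h : c₀ a = none then (E (L a)).ph (uu ⟨a, h⟩) (dd (J ⟨a, h⟩) (sS E hS uu ⟨a, h⟩))
  else (E (L a)).s (ll a h)

open Classical in
/-- the linear forms at the positions -/
def lA (x : ∀ r : Free c₀, (T (sS E hS uu r).1).V) (a : Fin m) :
    Module.Dual W.K (W.H (X (L a)).X) :=
  if h : c₀ a = none then
    ((hT (sS E hS uu ⟨a, h⟩).1).B (x ⟨a, h⟩)) ∘ₗ (E (L a)).pr (uu ⟨a, h⟩)
  else (E (L a)).nu (ll a h)

theorem lA_update [DecidableEq (Free c₀)] (x : ∀ r : Free c₀, (T (sS E hS uu r).1).V)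
    (r : Free c₀) (v : (T (sS E hS uu r).1).V) :
    lA hT E hS uu ll (update x r v) = update (lA hT E hS uu ll x) r.1
      (((hT (sS E hS uu r).1).B v) ∘ₗ (E (L r.1)).pr (uu r)) := by
  funext a
  by_cases ha : a = r.1
  · subst ha
    rw [update_self, lA, dif_pos r.2]
    congr 1
    rw [update_self]
  · rw [update_of_ne ha, lA, lA]
    by_cases h : c₀ a = none
    · rw [dif_pos h, dif_pos h, update_of_ne fun hr => ha (congrArg Subtype.val hr)]
    · rw [dif_neg h, dif_neg h]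

/-- the multilinear map of a pattern -/
def hA (c : W.H Y.X) :
    MultilinearMap W.K (fun r : Free c₀ => (T (sS E hS uu r).1).V) (W.H Z.X) where
  toFun x := D.CtM c (lA hT E hS uu ll x)
  map_update_add' := by
    intro _ x r v w
    have h1 : ∀ v, lA hT E hS uu ll (update x r v) = update (lA hT E hS uu ll x) r.1
      (((hT (sS E hS uu r).1).B v) ∘ₗ (E (L r.1)).pr (uu r)) := fun v =>
        lA_update hT E hS uu ll x r v
    rw [h1, h1, h1, ← MultilinearMap.map_update_add]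
    congr 2
    rw [map_add, LinearMap.add_comp]
  map_update_smul' := by
    intro _ x r a v
    have h1 : ∀ v, lA hT E hS uu ll (update x r v) = update (lA hT E hS uu ll x) r.1
      (((hT (sS E hS uu r).1).B v) ∘ₗ (E (L r.1)).pr (uu r)) := fun v =>
        lA_update hT E hS uu ll x r v
    rw [h1, h1, ← MultilinearMap.map_update_smul]
    congr 2
    rw [map_smul, LinearMap.smul_comp]

open Classical in
/-- the character at a position -/
def scA (a : Fin m) : Γ →* W.Kˣ :=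
  if h : c₀ a = none then χ ^ (-(E (L a)).z (uu ⟨a, h⟩)) * (hT (sS E hS uu ⟨a, h⟩).1).μ
  else χ ^ (E (L a)).n (ll a h)

theorem lA_act {g : Γ} (hg : ∀ a, g ∈ (E (L a)).Δ) (x : ∀ r : Free c₀, (T (sS E hS uu r).1).V)
    (a : Fin m) :
    lA hT E hS uu ll (fun r => (T (sS E hS uu r).1).ρ g (x r)) a ∘ₗ
      ((X (L a)).act g).toLinearMap =
    ((scA hT E hS uu ll a g : W.Kˣ) : W.K) • lA hT E hS uu ll x a := by
  apply LinearMap.ext
  intro y
  rw [lA, lA, scA]
  by_cases h : c₀ a = none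
  · rw [dif_pos h, dif_pos h, dif_pos h]
    have key : ∀ x' : (T ((E (L a)).ty (uu ⟨a, h⟩))).V,
        (hT ((E (L a)).ty (uu ⟨a, h⟩))).B ((T ((E (L a)).ty (uu ⟨a, h⟩))).ρ g x')
          ((E (L a)).pr (uu ⟨a, h⟩) ((X (L a)).act g y)) =
        (((χ ^ (-(E (L a)).z (uu ⟨a, h⟩)) * (hT ((E (L a)).ty (uu ⟨a, h⟩))).μ) g : W.Kˣ) : W.K) *
          (hT ((E (L a)).ty (uu ⟨a, h⟩))).B x' ((E (L a)).pr (uu ⟨a, h⟩) y) := by
      intro x'
      rw [(E (L a)).pr_act g (hg a), map_smul, smul_eq_mul, MonoidHom.mul_apply, Units.val_mul,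
        mul_assoc]
      congr 1
      · rw [MonoidHom.zpow_apply, Units.val_zpow_eq_zpow_val]
      · exact MRep.eqv (hT _) g _ _
    exact key (x ⟨a, h⟩)
  · rw [dif_neg h, dif_neg h, dif_neg h]
    change (E (L a)).nu (ll a h) ((X (L a)).act g y) = _ * (E (L a)).nu (ll a h) y
    rw [(E (L a)).nu_act g (hg a), MonoidHom.pow_apply, Units.val_pow_eq_pow_val]

theorem hA_eqv {j : ℕ} {c : W.H Y.X} (hc : IsTate χ Y j c) :
    EqvM T ((∏ a, scA hT E hS uu ll a) * (χ ^ j)⁻¹) Z.act (fun r => (sS E hS uu r).1)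
      (hA hT E D hS uu ll c) := by
  obtain ⟨-, Δ, hΔ, hca⟩ := hc.out
  refine ⟨Δ ⊓ ⨅ a, (E (L a)).Δ, ?_, fun g hg x => ?_⟩
  · have : (⨅ a, (E (L a)).Δ).FiniteIndex := Subgroup.finiteIndex_iInf fun a => (E (L a)).fin
    infer_instance
  · obtain ⟨hg1, hg2⟩ := Subgroup.mem_inf.1 hg
    have hg3 : ∀ a, g ∈ (E (L a)).Δ := fun a => Subgroup.mem_iInf.1 hg2 a
    have h1 := D.Ct_act g (lA hT E hS uu ll (fun r => (T (sS E hS uu r).1).ρ g (x r))) c
    rw [hca g hg1, map_smul] at h1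
    have h2 : D.Ct (fun a => lA hT E hS uu ll (fun r => (T (sS E hS uu r).1).ρ g (x r)) a ∘ₗ
        ((X (L a)).act g).toLinearMap) c =
        (∏ a, ((scA hT E hS uu ll a g : W.Kˣ) : W.K)) • D.Ct (lA hT E hS uu ll x) c := by
      have h3 : (fun a => lA hT E hS uu ll (fun r => (T (sS E hS uu r).1).ρ g (x r)) a ∘ₗ
          ((X (L a)).act g).toLinearMap) =
          fun a => ((scA hT E hS uu ll a g : W.Kˣ) : W.K) • lA hT E hS uu ll x a := by
        funext a
        exact lA_act hT E hS uu ll hg3 x a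
      rw [h3]
      exact (D.CtM c).map_smul_univ _ _
    rw [h2, map_smul] at h1
    change D.Ct _ c = _ • Z.act g (D.Ct _ c)
    have h4 : (χ g : W.K) ^ j ≠ 0 := pow_ne_zero _ (Units.ne_zero (χ g))
    have h5 : (((∏ a, scA hT E hS uu ll a) * (χ ^ j)⁻¹ : Γ →* W.Kˣ) g : W.K) =
        ((χ g : W.K) ^ j)⁻¹ * ∏ a, ((scA hT E hS uu ll a g : W.Kˣ) : W.K) := by
      rw [MonoidHom.mul_apply, Units.val_mul, mul_comm, MonoidHom.inv_apply,
        Units.val_inv_eq_inv_val, MonoidHom.pow_apply, Units.val_pow_eq_pow_val,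
        MonoidHom.finsetProd_apply, Units.coe_prod]
    rw [h5, mul_smul, ← h1, smul_smul, inv_mul_cancel₀ h4, one_smul]

end pattern

end

end Run7.h552.PD
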