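import Pool.Agent.Run7.h552.PD.Defs

/-!
# The Tate conjecture for pairs
-/

set_option autoImplicit false

open CategoryTheory AlgebraicGeometry

universe u

namespace Run7.h552.PD

open Pool.Agent.H914 Pool.Agent.H914.VarClass Pool.Agent.H914.VarClass.Obj
  Pool.Agent.H914.WeilCohomology Pool.Agent.H281R3.HT Pool.Agent.TH125.Gal Run7.h552.NP

variable {k : Type u} [Field k] {𝒱 : VarClass k} {ops : CycleOps 𝒱}
  {W : WeilCohomology.{u, 0} ops} {Γ : Type} [Group Γ] {ι : Type}

/-- The Tate conjecture for `Z`, for the factors `X_(L a)`, and for the products of two linked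
factors. -/
def PairsTate (χ : CharOf W Γ) {X : ι → GVar W Γ} (P : ∀ i, Gens (X i)) (Z : GVar W Γ) {m : ℕ}
    (L : Fin m → ι) : Prop :=
  TateConjecture χ Z ∧ (∀ a, TateConjecture χ (X (L a))) ∧
    ∀ a b, a < b → LinkedVar P (L a) (L b) → ∀ V, IsProd (X (L a)) (X (L b)) V →
      TateConjecture χ V

end Run7.h552.PD
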