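import Pool.Agent.Run7.h552.PD.Defs
import Pool.Agent.TH125.Gal.Kun
import Pool.Agent.TH125.Gal.Rec

/-!
# Towers of products, contractions and expansions
-/

set_option autoImplicit false
set_option linter.unusedSectionVars false

open CategoryTheory AlgebraicGeometry Finset Function

universe u

namespace Run7.h552.PD

open Pool.Agent Pool.Agent.H914 Pool.Agent.H914.VarClass Pool.Agent.H914.VarClass.Obj
  Pool.Agent.H914.WeilCohomology Pool.Agent.H281R3.HT Pool.Agent.W552 Pool.Agent.TH125.Gal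
open Run7.h552.NP (IsProd Equivariant)

noncomputable section

variable {k : Type u} [Field k] {𝒱 : VarClass k} {ops : CycleOps 𝒱}
  {W : WeilCohomology.{u, 0} ops} {Γ : Type} [Group Γ] {ι : Type}

/-- Sums of products, dependent form. -/
theorem sum_prod' {K : Type} [Field K] {A : Type} [Ring A] [Algebra K A] {m : ℕ}
    {α : Fin m → Type} [∀ i, Fintype (α i)] [∀ i, DecidableEq (α i)] (q : ∀ i, α i → K)
    (F : ∀ i, α i → A) :
    ∑ g : ∀ i, α i, (∏ l, q l (g l)) • (List.ofFn fun l => F l (g l)).prod =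
      (List.ofFn fun l => ∑ a, q l a • F l a).prod := by
  have h1 := (MultilinearMap.mkPiAlgebraFin K m A).map_sum (fun l a => q l a • F l a)
  simp only [MultilinearMap.mkPiAlgebraFin_apply] at h1
  rw [h1]
  refine Finset.sum_congr rfl fun g _ => ?_
  have h2 := (MultilinearMap.mkPiAlgebraFin K m A).map_smul_univ (fun l => q l (g l))
    (fun l => F l (g l))
  simp only [MultilinearMap.mkPiAlgebraFin_apply] at h2
  exact h2.symm

/-- the products of pull-backs -/
def mon {Y : 𝒱.Obj} {m : ℕ} {B : Fin m → 𝒱.Obj} (p : ∀ a, Y ⟶ B a) (x : ∀ a, W.H (B a)) : W.H Y :=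
  (List.ofFn fun a => W.map (p a) (x a)).prod

theorem mon_zero {Y : 𝒱.Obj} {B : Fin 0 → 𝒱.Obj} (p : ∀ a, Y ⟶ B a) (x : ∀ a, W.H (B a)) :
    mon p x = 1 := by
  rw [mon, List.ofFn_zero, List.prod_nil]

theorem mon_succ {Y : 𝒱.Obj} {m : ℕ} {B : Fin (m + 1) → 𝒱.Obj} (p : ∀ a, Y ⟶ B a)
    (x : ∀ a, W.H (B a)) : mon p x =
      W.map (p 0) (x 0) * mon (fun a : Fin m => p a.succ) (fun a => x a.succ) := by
  rw [mon, List.ofFn_succ, List.prod_cons]
  rfl

theorem map_mon {Y Y' : 𝒱.Obj} {m : ℕ} {B : Fin m → 𝒱.Obj} (f : Y' ⟶ Y) (p : ∀ a, Y ⟶ B a)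
    (x : ∀ a, W.H (B a)) : W.map f (mon p x) = mon (fun a => f ≫ p a) x := by
  rw [mon, mon, map_list_prod, List.map_ofFn]
  congr 2
  funext a
  exact (W.map_comp _ _ _).symm

theorem mon_sum {Y : 𝒱.Obj} {m : ℕ} {B : Fin m → 𝒱.Obj} (p : ∀ a, Y ⟶ B a)
    {J : Fin m → Type} [∀ a, Fintype (J a)] [∀ a, DecidableEq (J a)] (q : ∀ a, J a → W.K)
    (e : ∀ a, J a → W.H (B a)) :
    mon p (fun a => ∑ j, q a j • e a j) =
      ∑ r : ∀ a, J a, (∏ a, q a (r a)) • mon p (fun a => e a (r a)) := by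
  have h1 := sum_prod' (K := W.K) (A := W.H Y) q fun a j => W.map (p a) (e a j)
  rw [mon]
  refine Eq.trans ?_ h1.symm
  congr 2
  funext a
  rw [map_sum]
  exact Finset.sum_congr rfl fun j _ => map_smul _ _ _

/-- The projections and contractions of a tower. -/
structure TD (X : ι → GVar W Γ) (Z : GVar W Γ) {m : ℕ} (L : Fin m → ι) (Y : GVar W Γ) where
  p : ∀ a, Y.X ⟶ (X (L a)).X
  q : Y.X ⟶ Z.X
  hp : ∀ a, Equivariant (A := Y) (B := X (L a)) (p a)
  hq : Equivariant (A := Y) (B := Z) q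
  Ct : (∀ a, Module.Dual W.K (W.H (X (L a)).X)) → (W.H Y.X →ₗ[W.K] W.H Z.X)
  Ct_mono : ∀ l x z, Ct l (mon p x * W.map q z) = (∏ a, l a (x a)) • z
  span : ∀ c : W.H Y.X, c ∈ Submodule.span W.K {y | ∃ x z, y = mon p x * W.map q z}
  tr_mono : ∀ x z, W.tr Y.X (mon p x * W.map q z) = (∏ a, W.tr _ (x a)) * W.tr Z.X z
  lift : ∀ (B : 𝒱.Obj) (f : ∀ a, B ⟶ (X (L a)).X) (fq : B ⟶ Z.X), ∃ F : B ⟶ Y.X,
    (∀ a, F ≫ p a = f a) ∧ F ≫ q = fq

variable {X : ι → GVar W Γ} {Z : GVar W Γ}

theorem equiv_comp {A B C : GVar W Γ} {f : A.X ⟶ B.X} {g : B.X ⟶ C.X} (hf : Equivariant f)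
    (hg : Equivariant g) : Equivariant (A := A) (B := C) (f ≫ g) := by
  intro γ a
  rw [W.map_comp, W.map_comp]
  have h1 : B.act γ (W.map g a) = W.map g (C.act γ a) := hg γ a
  rw [← h1]
  exact hf γ _

theorem Tow.data {m : ℕ} {L : Fin m → ι} {Y : GVar W Γ} (h : Tow X Z L Y) :
    Nonempty (TD X Z L Y) := by
  induction h with
  | base L =>
    refine ⟨⟨fun a => a.elim0, 𝟙 _, fun a => a.elim0, ?_, fun _ => LinearMap.id, ?_, ?_, ?_,
      fun B f fq => ⟨fq, fun a => a.elim0, Category.comp_id _⟩⟩⟩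
    · intro g a
      rw [W.map_id, W.map_id]
    · intro l x z
      rw [mon_zero, one_mul, W.map_id, Finset.univ_eq_empty, Finset.prod_empty, one_smul]
      rfl
    · intro c
      refine Submodule.subset_span ⟨fun a => a.elim0, c, ?_⟩
      rw [mon_zero, one_mul, W.map_id]
    · intro x z
      rw [mon_zero, one_mul, W.map_id, Finset.univ_eq_empty, Finset.prod_empty, one_mul]
  | @step m L Y Y' hY hP ih =>
    obtain ⟨D⟩ := ih
    obtain ⟨Y', υ⟩ := Y'
    obtain ⟨h, h1, h2⟩ := hP
    change Y' = _ at h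
    subst h
    rw [eqToHom_refl, Category.id_comp] at h1 h2
    have hsucc : ∀ (x : ∀ a, W.H (X (L a)).X),
        mon (Y := (X (L 0)).X.prod Y.X) (Fin.cases (motive := fun a => (X (L 0)).X.prod Y.X ⟶ (X (L a)).X)
          (fst (X (L 0)).X Y.X) (fun a => snd (X (L 0)).X Y.X ≫ D.p a)) x =
        W.map (fst (X (L 0)).X Y.X) (x 0) * W.map (snd (X (L 0)).X Y.X)
          (mon D.p fun a => x a.succ) := by
      intro x
      rw [mon_succ, map_mon]
      rfl
    refine ⟨⟨Fin.cases (motive := fun a => (X (L 0)).X.prod Y.X ⟶ (X (L a)).X)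
      (fst (X (L 0)).X Y.X) (fun a => snd (X (L 0)).X Y.X ≫ D.p a), snd (X (L 0)).X Y.X ≫ D.q,
      ?_, ?_, fun l => D.Ct (fun a => l a.succ) ∘ₗ ctr (l 0), ?_, ?_, ?_, ?_⟩⟩
    · intro a
      refine Fin.cases ?_ (fun a => ?_) a
      · exact h1
      · exact equiv_comp (B := Y) h2 (D.hp a)
    · exact equiv_comp (B := Y) h2 D.hq
    · intro l x z
      rw [hsucc, W.map_comp, mul_assoc, ← map_mul]
      change D.Ct _ (ctr (l 0) _) = _
      rw [ctr_apply, map_smul, D.Ct_mono, smul_smul, Fin.prod_univ_succ]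
    · intro c
      refine W.kunneth_induction (p := fun c => c ∈ Submodule.span W.K {y | ∃ x z, y =
        mon (Y := (X (L 0)).X.prod Y.X) (Fin.cases (motive := fun a => (X (L 0)).X.prod Y.X ⟶ (X (L a)).X)
          (fst (X (L 0)).X Y.X) (fun a => snd (X (L 0)).X Y.X ≫ D.p a)) x *
          W.map (snd (X (L 0)).X Y.X ≫ D.q) z}) (fun a b ha hb => Submodule.add_mem _ ha hb) ?_ c
      intro i j a _ b hb
      clear hb
      induction D.span b using Submodule.span_induction with
      | mem y hy =>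
        obtain ⟨x, z, rfl⟩ := hy
        refine Submodule.subset_span ⟨Fin.cases (motive := fun a => W.H (X (L a)).X) a x, z, ?_⟩
        rw [hsucc, map_mul, ← W.map_comp, mul_assoc]
        rfl
      | zero => rw [map_zero, mul_zero]; exact Submodule.zero_mem _
      | add x y _ _ hx hy => rw [map_add, mul_add]; exact Submodule.add_mem _ hx hy
      | smul r x _ hx => rw [map_smul, mul_smul_comm]; exact Submodule.smul_mem _ _ hx
    · intro x z
      rw [hsucc, W.map_comp, mul_assoc, ← map_mul, W.tr_prod, D.tr_mono, Fin.prod_univ_succ,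
        mul_assoc]
    · intro B f fq
      obtain ⟨F, hF, hFq⟩ := D.lift B (fun a => f a.succ) fq
      refine ⟨Obj.lift (f 0) F, fun a => ?_, ?_⟩
      · refine Fin.cases ?_ (fun a => ?_) a
        · exact Obj.lift_fst _ _
        · refine Eq.trans (Category.assoc _ _ _).symm ?_
          rw [Obj.lift_snd]
          exact hF a
      · rw [← Category.assoc, Obj.lift_snd, hFq]

namespace TD

variable {m : ℕ} {L : Fin m → ι} {Y : GVar W Γ} (D : TD X Z L Y)

theorem ext {M : Type} [AddCommGroup M] [Module W.K M] {f g : W.H Y.X →ₗ[W.K] M}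
    (h : ∀ x z, f (mon D.p x * W.map D.q z) = g (mon D.p x * W.map D.q z)) : f = g := by
  apply LinearMap.ext
  intro c
  induction D.span c using Submodule.span_induction with
  | mem y hy =>
    obtain ⟨x, z, rfl⟩ := hy
    exact h x z
  | zero => rw [map_zero, map_zero]
  | add x y _ _ hx hy => rw [map_add, map_add, hx, hy]
  | smul r x _ hx => rw [map_smul, map_smul, hx]

/-- **Expansion.** -/
theorem expand {J : Fin m → Type} [∀ a, Fintype (J a)] [∀ a, DecidableEq (J a)]
    (e : ∀ a, J a → W.H (X (L a)).X) (η : ∀ a, J a → Module.Dual W.K (W.H (X (L a)).X))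
    (h : ∀ a x, x = ∑ j, η a j x • e a j) (c : W.H Y.X) :
    c = ∑ r : ∀ a, J a, mon D.p (fun a => e a (r a)) *
      W.map D.q (D.Ct (fun a => η a (r a)) c) := by
  have h1 : (LinearMap.id : W.H Y.X →ₗ[W.K] W.H Y.X) =
      ∑ r : ∀ a, J a, LinearMap.mulLeft W.K (mon D.p (fun a => e a (r a))) ∘ₗ
        (W.map D.q).toLinearMap ∘ₗ D.Ct (fun a => η a (r a)) := by
    refine D.ext fun x z => ?_
    rw [LinearMap.sum_apply]
    have h2 : ∀ r : ∀ a, J a, (LinearMap.mulLeft W.K (mon D.p (fun a => e a (r a))) ∘ₗ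
        (W.map D.q).toLinearMap ∘ₗ D.Ct (fun a => η a (r a))) (mon D.p x * W.map D.q z) =
        ((∏ a, η a (r a) (x a)) • mon D.p (fun a => e a (r a))) * W.map D.q z := by
      intro r
      change mon D.p _ * W.map D.q (D.Ct _ _) = _
      rw [D.Ct_mono, map_smul, mul_smul_comm, smul_mul_assoc]
    rw [Finset.sum_congr rfl fun r _ => h2 r, ← Finset.sum_mul,
      ← mon_sum D.p (fun a j => η a j (x a)) e, LinearMap.id_apply]
    congr 2
    funext a
    exact h a (x a)
  have h3 := LinearMap.congr_fun h1 c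
  rw [LinearMap.sum_apply] at h3
  exact h3

/-- The contraction is multilinear. -/
def CtM (c : W.H Y.X) :
    MultilinearMap W.K (fun a => Module.Dual W.K (W.H (X (L a)).X)) (W.H Z.X) where
  toFun l := D.Ct l c
  map_update_add' := by
    intro _ l a f g
    have h1 : D.Ct (update l a (f + g)) = D.Ct (update l a f) + D.Ct (update l a g) := by
      refine D.ext fun x z => ?_
      rw [LinearMap.add_apply, D.Ct_mono, D.Ct_mono, D.Ct_mono, ← add_smul]
      congr 1
      have h2 := ((MultilinearMap.mkPiAlgebra W.K (Fin m) W.K).compLinearMap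
        (fun b => LinearMap.applyₗ (x b))).map_update_add l a f g
      exact h2
    convert LinearMap.congr_fun h1 c using 2
    · congr 2
      all_goals congr
  map_update_smul' := by
    intro _ l a r f
    have h1 : D.Ct (update l a (r • f)) = r • D.Ct (update l a f) := by
      refine D.ext fun x z => ?_
      rw [LinearMap.smul_apply, D.Ct_mono, D.Ct_mono, smul_smul]
      congr 1
      have h2 := ((MultilinearMap.mkPiAlgebra W.K (Fin m) W.K).compLinearMap
        (fun b => LinearMap.applyₗ (x b))).map_update_smul l a r f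
      exact h2
    exact LinearMap.congr_fun h1 c

theorem act_mon (g : Γ) (x : ∀ a, W.H (X (L a)).X) :
    Y.act g (mon D.p x) = mon D.p fun a => (X (L a)).act g (x a) := by
  rw [mon, mon, map_list_prod, List.map_ofFn]
  congr 2
  funext a
  exact D.hp a g (x a)

/-- **Equivariance.** -/
theorem Ct_act (g : Γ) (l : ∀ a, Module.Dual W.K (W.H (X (L a)).X)) (c : W.H Y.X) :
    D.Ct l (Y.act g c) =
      Z.act g (D.Ct (fun a => l a ∘ₗ ((X (L a)).act g).toLinearMap) c) := by
  have h1 : D.Ct l ∘ₗ (Y.act g).toLinearMap = (Z.act g).toLinearMap ∘ₗ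
      D.Ct (fun a => l a ∘ₗ ((X (L a)).act g).toLinearMap) := by
    refine D.ext fun x z => ?_
    change D.Ct l (Y.act g (mon D.p x * W.map D.q z)) =
      Z.act g (D.Ct _ (mon D.p x * W.map D.q z))
    rw [map_mul, D.act_mon, D.Ct_mono, map_smul]
    have h2 : Y.act g (W.map D.q z) = W.map D.q (Z.act g z) := D.hq g z
    rw [h2, D.Ct_mono]
    rfl
  exact LinearMap.congr_fun h1 c

/-- equivariance of morphisms to a tower -/
theorem equivariant_of {V : GVar W Γ} {F : V.X ⟶ Y.X}
    (h : ∀ a, Equivariant (A := V) (B := X (L a)) (F ≫ D.p a))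
    (hq : Equivariant (A := V) (B := Z) (F ≫ D.q)) : Equivariant (A := V) (B := Y) F := by
  intro g x
  have h1 : (V.act g).toLinearMap ∘ₗ (W.map F).toLinearMap =
      (W.map F).toLinearMap ∘ₗ (Y.act g).toLinearMap := by
    refine D.ext fun x z => ?_
    change V.act g (W.map F (mon D.p x * W.map D.q z)) =
      W.map F (Y.act g (mon D.p x * W.map D.q z))
    have h2 : V.act g (W.map (F ≫ D.q) z) = W.map (F ≫ D.q) (Z.act g z) := hq g z
    have h3 : Y.act g (W.map D.q z) = W.map D.q (Z.act g z) := D.hq g z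
    rw [map_mul, map_mul, map_mul, map_mul, D.act_mon, map_mon, map_mon, ← W.map_comp, h2, h3,
      ← W.map_comp]
    congr 1
    rw [mon, mon, map_list_prod, List.map_ofFn]
    congr 2
    funext a
    exact h a g (x a)
  exact LinearMap.congr_fun h1 x

/-- **Uniqueness of coefficients.** -/
theorem eq_zero_of_sum {N : Type} [Fintype N] {M : N → W.H Y.X} (hM : LinearIndependent W.K M)
    (hm : ∀ n, M n ∈ Submodule.span W.K (Set.range fun x => mon D.p x)) {w : N → W.H Z.X}
    (h : ∑ n, M n * W.map D.q (w n) = 0) (n : N) : w n = 0 := by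
  classical
  let J : Fin m → Type := fun a => Module.Free.ChooseBasisIndex W.K (W.H (X (L a)).X)
  let b : ∀ a, Module.Basis (J a) W.K (W.H (X (L a)).X) := fun a =>
    Module.Free.chooseBasis W.K (W.H (X (L a)).X)
  have hexp : ∀ a (x : W.H (X (L a)).X), x = ∑ j, (b a).coord j x • b a j := fun a x =>
    ((b a).sum_repr x).symm
  rw [← Module.forall_dual_apply_eq_zero_iff W.K]
  intro ψ
  let Ψ : W.H Y.X →ₗ[W.K] W.H Y.X := ∑ r : ∀ a, J a,
    (LinearMap.toSpanSingleton W.K (W.H Y.X) (mon D.p fun a => b a (r a))) ∘ₗ ψ ∘ₗ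
      D.Ct (fun a => (b a).coord (r a))
  have hΨ0 : ∀ x z, Ψ (mon D.p x * W.map D.q z) = ψ z • mon D.p x := by
    intro x z
    rw [LinearMap.sum_apply]
    have h2 : ∀ r : ∀ a, J a, ((LinearMap.toSpanSingleton W.K (W.H Y.X)
        (mon D.p fun a => b a (r a))) ∘ₗ ψ ∘ₗ D.Ct (fun a => (b a).coord (r a)))
        (mon D.p x * W.map D.q z) =
        ψ z • ((∏ a, (b a).coord (r a) (x a)) • mon D.p (fun a => b a (r a))) := by
      intro r
      change ψ (D.Ct _ _) • (mon D.p _ : W.H Y.X) = _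
      rw [D.Ct_mono, map_smul, smul_eq_mul, mul_comm, mul_smul]
    rw [Finset.sum_congr rfl fun r _ => h2 r, ← Finset.smul_sum,
      ← mon_sum D.p (fun a j => (b a).coord j (x a)) fun a j => b a j]
    congr 2
    funext a
    exact (hexp a (x a)).symm
  have hΨ : ∀ y ∈ Submodule.span W.K (Set.range fun x => mon D.p x), ∀ z,
      Ψ (y * W.map D.q z) = ψ z • y := by
    intro y hy z
    induction hy using Submodule.span_induction with
    | mem y hy =>
      obtain ⟨x, rfl⟩ := hy
      exact hΨ0 x z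
    | zero => rw [zero_mul, map_zero, smul_zero]
    | add x y _ _ hx hy => rw [add_mul, map_add, hx, hy, smul_add]
    | smul r x _ hx => rw [smul_mul_assoc, map_smul, hx, smul_comm]
  have h1 := congrArg Ψ h
  rw [map_sum, map_zero, Finset.sum_congr rfl fun n _ => hΨ _ (hm n) (w n)] at h1
  exact linearIndependent_iff'.1 hM Finset.univ (fun n => ψ (w n)) h1 n (Finset.mem_univ _)

end TD

end

end Run7.h552.PD
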